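import Pool.Agent.P.MP_119182_lc.CO.T1c37

/-! Links whose lower node shares the next larger cell with the finger. -/

set_option autoImplicit false

namespace Pool.Agent.P.MP_119182_lc.CO

open Finset
open scoped Classical

theorem t1k_up {a b s v : ℕ} (h : a / 2 ^ s = b / 2 ^ s) (hv : s ≤ v) : a / 2 ^ v = b / 2 ^ v := by
  obtain ⟨k, rfl⟩ := Nat.exists_eq_add_of_le hv
  rw [pow_add, ← Nat.div_div_eq_div_mul, ← Nat.div_div_eq_div_mul, h]

theorem t1k_succ (a s : ℕ) : a / 2 ^ (s + 1) = a / 2 ^ s / 2 := by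
  rw [pow_succ, Nat.div_div_eq_div_mul]

theorem t1k_lt {sl : ℤ → ℕ} (h : Monotone sl) {a b : ℤ} {s : ℕ}
    (h' : sl a / 2 ^ s < sl b / 2 ^ s) : a < b :=
  not_le.1 fun h1 => absurd (Nat.div_le_div_right (h h1)) (not_le.2 h')

/-- All links of the first type. -/
theorem t1k_pd (A Q : Finset ℕ) (x : ℕ → ℤ) (P U : ℕ → Finset ℤ) (lo : ℕ → ℤ → ℤ) (ps : ℕ → ℤ)
    (sl : ℤ → ℕ) (n c : ℕ) (K D : ℝ) (hK : 0 < K) (hD : 0 < D)
    (hc : 8 * (K + D + 1) ≤ (5 / 4 : ℝ) ^ c) (hx : Monotone x) (hsl : Monotone sl)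
    (hn : ∀ t ∈ A, ∀ u ∈ U t, sl u < n)
    (lk : ∀ t ∈ A, U t ⊆ P t)
    (same : ∀ t ∈ A, ∀ u ∈ U t, ∀ u' ∈ U t, u < u' → u < lo t u')
    (fr : ∀ t ∈ A, ∀ t' ∈ A, ∀ u ∈ U t, ∀ u' ∈ U t', t < t' → x t' < lo t u →
      (lo t u < u' → u < u') ∧ (lo t u < lo t' u' → u < lo t' u'))
    (hid : ∀ ξ ∈ A, ∀ t ∈ A, ∀ t' ∈ A, ∀ v ∈ U ξ, ∀ u ∈ U t, ∀ u' ∈ U t', ξ < t → t < t' →
      u' < v → lo t u < u' → x t' < lo t u → u' ∉ P t → ∃ τ ∈ Q, ξ ≤ τ ∧ τ < t ∧ ps τ = u') :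
    ∃ Pd : ℕ → Finset ℤ, (∀ t, Pd t ⊆ U t) ∧
      (∀ t ∈ A, (((U t).filter fun u => ∃ s, sl (x t) / 2 ^ s < sl (lo t u) / 2 ^ s ∧
        sl (x t) / 2 ^ (s + 1) = sl (lo t u) / 2 ^ (s + 1) ∧
        sl (lo t u) / 2 ^ s < sl u / 2 ^ s) \ Pd t).card ≤ 1) ∧
      ((∑ t ∈ A, (Pd t).card : ℕ) : ℝ) ≤ 4 * (∑ t ∈ A, (P t).card : ℕ) / K +
        10 * (Q.card / D + (1 + 4 * (K + D + 1) * (c + 3)) * n) := by
  let L : ℕ → ℕ → ℤ → Prop := fun t s u => u ∈ U t ∧ sl (x t) / 2 ^ s < sl (lo t u) / 2 ^ s ∧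
    sl (x t) / 2 ^ (s + 1) = sl (lo t u) / 2 ^ (s + 1) ∧ sl (lo t u) / 2 ^ s < sl u / 2 ^ s
  have L1 : ∀ t s u, L t s u → sl (lo t u) / 2 ^ (s + 1) < sl u / 2 ^ (s + 1) := by
    rintro t s u ⟨-, h1, h2, h3⟩
    rw [t1k_succ, t1k_succ] at h2 ⊢
    omega
  have L2 : ∀ t s u t' u', L t s u → L t' s u' → sl (x t') / 2 ^ s = sl (x t) / 2 ^ s →
      lo t u < u' ∧ x t' < lo t u := by
    intro t s u t' u' h h' e
    refine ⟨t1k_lt hsl (s := s + 1) ?_, t1k_lt hsl (s := s) (e ▸ h.2.1)⟩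
    rw [← h.2.2.1, ← t1k_up e (Nat.le_succ s), h'.2.2.1]
    exact L1 _ _ _ h'
  let good : ℕ → ℕ → Prop := fun t s => (∃ u, L t s u) ∧ ((P t).card : ℝ) ≤ K * (5 / 4 : ℝ) ^ s
  let bad : ℕ → ℕ → Prop := fun t s => K * (5 / 4 : ℝ) ^ s < (P t).card
  let G := (A ×ˢ range n).filter fun a => good a.1 a.2
  have hG : ∀ t s, (t, s) ∈ G → t ∈ A ∧ good t s := fun t s h =>
    ⟨(mem_product.1 (mem_filter.1 h).1).1, (mem_filter.1 h).2⟩
  let X : ℕ → ℕ → ℕ := fun s t => sl (x t) / 2 ^ s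
  let dom : ℕ → ℕ → Prop := fun t s => good t s ∧ t1c_Dom G X (t, s)
  let Pd : ℕ → Finset ℤ := fun t => (U t).filter fun u => ∃ s, L t s u ∧ (bad t s ∨ dom t s)
  have L3 : ∀ t ∈ A, ∀ s u u', L t s u → L t s u' → u = u' := by
    intro t ht s u u' h1 h2
    by_contra hne
    rcases lt_or_gt_of_ne hne with h3 | h3
    · exact absurd (same t ht u h1.1 u' h2.1 h3) (not_lt.2 (L2 _ _ _ _ _ h2 h1 rfl).1.le)
    · exact absurd (same t ht u' h2.1 u h1.1 h3) (not_lt.2 (L2 _ _ _ _ _ h1 h2 rfl).1.le)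
  have L4 : ∀ t ∈ A, ∀ s u, L t s u → s ∈ range n := by
    intro t ht s u h1
    have h3 : 0 < sl u / 2 ^ s := (Nat.zero_le _).trans_lt h1.2.2.2
    have h4 : 2 ^ s ≤ sl u := (Nat.div_pos_iff.1 h3).2
    exact mem_range.2 ((Nat.lt_two_pow_self.trans_le h4).trans (hn t ht u h1.1))
  have c1 : ∀ t ∈ A, (Pd t).card ≤
      ((range n).filter (dom t)).card + ((range n).filter (bad t)).card := by
    intro t ht
    refine le_trans ?_ (card_union_le _ _)
    let sc : ℤ → ℕ := fun u =>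
      if h : ∃ s, L t s u ∧ (bad t s ∨ dom t s) then h.choose else 0
    have sc1 : ∀ u ∈ Pd t, L t (sc u) u ∧ (bad t (sc u) ∨ dom t (sc u)) := by
      intro u hu
      have h3 := (mem_filter.1 hu).2
      have e : sc u = h3.choose := dif_pos h3
      rw [e]
      exact h3.choose_spec
    refine card_le_card_of_injOn sc (fun u hu => ?_) fun u hu u' hu' h => ?_
    · obtain ⟨h1, h5 | h5⟩ := sc1 u (mem_coe.1 hu)
      · exact mem_coe.2 (mem_union_right _ (mem_filter.2 ⟨L4 t ht _ _ h1, h5⟩))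
      · exact mem_coe.2 (mem_union_left _ (mem_filter.2 ⟨L4 t ht _ _ h1, h5⟩))
    · exact L3 t ht _ _ _ (sc1 u (mem_coe.1 hu)).1 (h ▸ (sc1 u' (mem_coe.1 hu')).1)
  have c2 : ∀ t, (((range n).filter (bad t)).card : ℝ) ≤ 4 * (P t).card / K := by
    intro t
    rcases ((range n).filter (bad t)).eq_empty_or_nonempty with h | h
    · rw [h, card_empty, Nat.cast_zero]
      positivity
    · have h1 : ((range n).filter (bad t)).card ≤ ((range n).filter (bad t)).max' h + 1 := by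
        rw [← card_range (_ + 1)]
        exact card_le_card fun s hs => mem_range.2 (Nat.lt_succ_of_le (le_max' _ s hs))
      have h2 : bad t _ := (mem_filter.1 (max'_mem _ h)).2
      have h3 := mul_le_mul_of_nonneg_left (t1c_bern (((range n).filter (bad t)).max' h)) hK.le
      have h4 : (((range n).filter (bad t)).card : ℝ) ≤
          (((range n).filter (bad t)).max' h : ℕ) + 1 := by exact_mod_cast h1
      have h5 := mul_le_mul_of_nonneg_left h4 hK.le
      have h6 : K * (5 / 4 : ℝ) ^ (((range n).filter (bad t)).max' h) < (P t).card := h2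
      rw [le_div_iff₀ hK]
      linarith
  have c3 : (G.filter (t1c_Dom G X)).card = ∑ t ∈ A, ((range n).filter (dom t)).card := by
    rw [filter_filter, card_filter, sum_product]
    exact sum_congr rfl fun t _ => (card_filter _ _).symm
  have c4 := t1c_dom G X Q n c K D hK.le hD hc
    (fun s a b h => Nat.div_le_div_right (hsl (hx h)))
    (fun t s h => by
      obtain ⟨h1, ⟨u, h2⟩, -⟩ := hG t s h
      exact (h2.2.1.trans h2.2.2.2).trans_le (Nat.div_le_div_right (hn t h1 u h2.1).le))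
    (fun s a a' z S B ha ha' az za e hz sS hB => by
      obtain ⟨a1, ⟨ua, a2⟩, a3⟩ := hG a' s ha'
      obtain ⟨z1, ⟨uz, z2⟩, -⟩ := hG z S hz
      replace e : sl (x a') / 2 ^ s = sl (x a) / 2 ^ s := e
      have ez : sl (x z) / 2 ^ s = sl (x a) / 2 ^ s :=
        le_antisymm (e ▸ Nat.div_le_div_right (hsl (hx za.le))) (Nat.div_le_div_right (hsl (hx az)))
      let up : ℕ → ℤ := fun b => if h : ∃ u, L b s u then h.choose else 0
      have up1 : ∀ b ∈ B, b ∈ A ∧ L b s (up b) := by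
        intro b hb
        obtain ⟨h1, h2, -⟩ := hG b s (hB b hb).2.1
        have e : up b = h2.choose := dif_pos h2
        rw [e]
        exact ⟨h1, h2.choose_spec⟩
      have inc : ∀ b ∈ B, ∀ b' ∈ B, b < b' → up b < up b' := by
        intro b hb b' hb' h
        obtain ⟨h1, h2⟩ := up1 b hb
        obtain ⟨h1', h2'⟩ := up1 b' hb'
        obtain ⟨h3, h4⟩ := L2 _ _ _ _ _ h2 h2' ((hB b' hb').2.2.1.trans (hB b hb).2.2.1.symm)
        exact (fr b h1 b' h1' _ h2.1 _ h2'.1 h h4).1 h3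
      have h1 : B.card ≤ (P a' ∪ (Q.filter fun y => a ≤ y ∧ y < a').image ps).card := by
        refine card_le_card_of_injOn up (fun b hb => ?_) fun b hb b' hb' h => ?_
        · obtain ⟨b1, b2⟩ := up1 b (mem_coe.1 hb)
          obtain ⟨b3, -, b4, y, v, y1, sv, vS, by', y2⟩ := hB b (mem_coe.1 hb)
          obtain ⟨y3, ⟨uy, y4⟩, -⟩ := hG y v y1
          have y2' : sl (x y) / 2 ^ s = sl (x b) / 2 ^ s := y2.trans b4.symm
          have f1 : x y < lo b (up b) := t1k_lt hsl (s := s) (y2' ▸ b2.2.1)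
          have f2 : lo b (up b) < lo y uy := by
            refine t1k_lt hsl (s := v) ?_
            rw [← t1k_up b2.2.2.1 sv, ← t1k_up y2' sv.le]
            exact y4.2.1
          have f3 : lo y uy < uy := t1k_lt hsl y4.2.2.2
          have f4 : up b < lo y uy := by
            rcases by'.eq_or_lt with rfl | h
            · rcases lt_trichotomy (up b) uy with h | h | h
              · exact same b b1 _ b2.1 _ y4.1 h
              · rw [h] at f2
                exact absurd f2 (lt_irrefl _)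
              · exact absurd (same b b1 _ y4.1 _ b2.1 h) (not_lt.2 (f2.trans f3).le)
            · exact (fr b b1 y y3 _ b2.1 _ y4.1 h f1).2 f2
          have f5 : lo y uy < uz := by
            refine t1k_lt hsl (s := S + 1) ?_
            rw [← t1k_up y4.2.2.1 (Nat.succ_le_succ vS),
              t1k_up (y2.trans ez.symm) (sS.le.trans (Nat.le_succ S)), z2.2.2.1]
            exact L1 _ _ _ z2
          obtain ⟨f6, f7⟩ := L2 _ _ _ _ _ a2 b2 (b4.trans e.symm)
          by_cases h : up b ∈ P a'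
          · exact mem_coe.2 (mem_union_left _ h)
          · obtain ⟨τ, t1, t2, t3, t4⟩ := hid z z1 a' a1 b b1 _ z2.1 _ a2.1 _ b2.1 za
              (lt_of_le_of_ne b3 fun e' => h (e' ▸ lk b b1 b2.1)) (f4.trans f5) f6 f7 h
            exact mem_coe.2 (mem_union_right _
              (mem_image.2 ⟨τ, mem_filter.2 ⟨t1, az.trans t2, t3⟩, t4⟩))
        · by_contra hne
          rcases lt_or_gt_of_ne hne with h3 | h3
          · exact (inc b hb b' hb' h3).ne h
          · exact (inc b' hb' b hb h3).ne' h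
      have h2 := (h1.trans (card_union_le _ _)).trans (Nat.add_le_add_left card_image_le _)
      have h3 : (B.card : ℝ) ≤ (P a').card + (Q.filter fun y => a ≤ y ∧ y < a').card := by
        exact_mod_cast h2
      linarith)
  refine ⟨Pd, fun t => filter_subset _ _, fun t ht => card_le_one.2 fun u hu u' hu' => ?_, ?_⟩
  · have key : ∀ u, u ∈ ((U t).filter fun u => ∃ s, sl (x t) / 2 ^ s < sl (lo t u) / 2 ^ s ∧
        sl (x t) / 2 ^ (s + 1) = sl (lo t u) / 2 ^ (s + 1) ∧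
        sl (lo t u) / 2 ^ s < sl u / 2 ^ s) \ Pd t →
        ∃ s, L t s u ∧ (t, s) ∈ G ∧ ¬ t1c_Dom G X (t, s) := by
      intro u hu
      obtain ⟨h1, h2⟩ := mem_sdiff.1 hu
      obtain ⟨h3, s, h4⟩ := mem_filter.1 h1
      have h5 : L t s u := ⟨h3, h4⟩
      have h6 : ¬ (bad t s ∨ dom t s) := fun h => h2 (mem_filter.2 ⟨h3, s, h5, h⟩)
      have h7 : good t s := ⟨⟨u, h5⟩, not_lt.1 fun h => h6 (Or.inl h)⟩
      exact ⟨s, h5, mem_filter.2 ⟨mem_product.2 ⟨ht, L4 t ht _ _ h5⟩, h7⟩,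
        fun h => h6 (Or.inr ⟨h7, h⟩)⟩
    obtain ⟨s, h1, h2, h3⟩ := key u hu
    obtain ⟨s', h1', h2', h3'⟩ := key u' hu'
    obtain rfl := t1c_one h2 h2' h3 h3'
    exact L3 t ht _ _ _ h1 h1'
  have c5 := sum_le_sum c1
  rw [sum_add_distrib, ← c3] at c5
  have c6 : ((∑ t ∈ A, ((range n).filter (bad t)).card : ℕ) : ℝ) ≤
      4 * (∑ t ∈ A, (P t).card : ℕ) / K := by
    rw [Nat.cast_sum, Nat.cast_sum, mul_sum, sum_div]
    exact sum_le_sum fun t _ => c2 t
  refine le_trans (Nat.cast_le.2 c5) ?_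
  rw [Nat.cast_add]
  linarith

end Pool.Agent.P.MP_119182_lc.CO
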