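import Pool.Agent.P.MP_119182_lc.CO.Base
import Pool.Agent.P.MP_119182_lc.CO.T1k37

/-! The bound for type 1 links. -/

set_option autoImplicit false

namespace Pool.Agent.P.MP_119182_lc.CO

open Finset
open scoped Classical

theorem type1 : Type1 := by
  refine ⟨252570, fun K c n sl h hsl hn => ?_⟩
  rcases Nat.eq_zero_or_pos K with rfl | hK
  · rw [zero_mul]
    exact Nat.zero_le _
  have K0 : (0 : ℝ) < K := Nat.cast_pos.2 hK
  obtain ⟨Pd, -, p2, p3⟩ := t1k_pd c.A c.Zs c.x c.P c.U c.lo c.lf sl n (32 * (14 * K + 1))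
    (4 * K) (10 * K) (by positivity) (by positivity)
    (by
      have := t1c_bern (32 * (14 * K + 1))
      push_cast at this
      linarith)
    h.mono hsl (fun _ _ u _ => hn u) (fun t _ u hu => (h.lk t u hu).1) (fun t _ => h.same t)
    (fun t _ t' _ u hu v hv a1 a2 => ⟨h.frU t t' u hu v hv a1 a2, h.frL t t' u hu v hv a1 a2⟩)
    (fun z _ t _ t' _ w hw u hu v hv a1 a2 a3 a4 a5 a6 =>
      h.hid z t t' u hu v hv a1 a2 a5 ⟨w, hw⟩ (a3.trans_le (h.le z w (h.lk z w hw).1))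
        ((h.on t t' u hu v hv a2 a5 a4).resolve_left a6))
  have h2 : c.cnt1 sl n ≤ ∑ t ∈ c.A, (Pd t).card + c.own := by
    rw [Core.cnt1, sum_comm, Core.own, card_filter, ← sum_add_distrib]
    refine sum_le_sum fun t ht => ?_
    split_ifs with h3
    · rw [← card_biUnion]
      · refine le_trans (card_le_card (biUnion_subset.2 fun s _ u hu => ?_))
          (card_le_card_sdiff_add_card.trans
            ((Nat.add_le_add_right (p2 t ht) _).trans (add_comm _ _).le))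
        obtain ⟨u1, ⟨u2, u3⟩, u4⟩ := mem_filter.1 hu
        exact mem_filter.2 ⟨u1, s, u2, u4, u3⟩
      · intro s _ s' _ hne
        rw [Function.onFun, disjoint_left]
        intro u hu hu'
        obtain ⟨-, ⟨u2, -⟩, u4⟩ := mem_filter.1 hu
        obtain ⟨-, ⟨v2, -⟩, v4⟩ := mem_filter.1 hu'
        rcases lt_or_gt_of_ne hne with h4 | h4
        · exact v2.ne (t1k_up u4 h4)
        · exact u2.ne (t1k_up v4 h4)
    · rw [not_nonempty_iff_eq_empty.1 h3]
      simp
  have h3 : K * (10 * (1 + 4 * (14 * K + 1) * (32 * (14 * K + 1) + 3))) ≤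
      252570 * (K + 1) ^ 6 := by
    have a1 : 14 * K + 1 ≤ 14 * (K + 1) := by omega
    have a2 : 32 * (14 * K + 1) + 3 ≤ 451 * (K + 1) := by omega
    have a3 := Nat.mul_le_mul (Nat.mul_le_mul_left 4 a1) a2
    have a4 : 1 ≤ (K + 1) ^ 2 := Nat.one_le_pow _ _ (Nat.succ_pos K)
    have a5 : (K + 1) ^ 3 ≤ (K + 1) ^ 6 := Nat.pow_le_pow_right (Nat.succ_pos K) (by norm_num)
    have a6 : 1 + 4 * (14 * K + 1) * (32 * (14 * K + 1) + 3) ≤ 25257 * (K + 1) ^ 2 := by
      have e : 4 * (14 * (K + 1)) * (451 * (K + 1)) = 25256 * (K + 1) ^ 2 := by ring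
      omega
    calc _ ≤ (K + 1) * (10 * (25257 * (K + 1) ^ 2)) :=
          Nat.mul_le_mul (Nat.le_succ K) (Nat.mul_le_mul_left 10 a6)
      _ = 252570 * (K + 1) ^ 3 := by ring
      _ ≤ _ := Nat.mul_le_mul_left _ a5
  refine le_trans ?_ (Nat.add_le_add_left (Nat.mul_le_mul_right n h3) _)
  have h2' := (Nat.cast_le (α := ℝ)).2 h2
  rw [Nat.cast_add] at h2'
  have h6 := mul_le_mul_of_nonneg_left (h2'.trans (add_le_add_left p3 _)) K0.le
  have h5 : ∑ t ∈ c.A, (c.P t).card = c.N := rfl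
  rw [h5] at h6
  have e1 : (K : ℝ) * (4 * (c.N : ℝ) / (4 * K)) = c.N := by field_simp
  have e2 : (K : ℝ) * ((c.Zs.card : ℝ) / (10 * K)) = c.Zs.card / 10 := by field_simp
  rw [← Nat.cast_le (α := ℝ)]
  push_cast at h6 ⊢
  linarith

end Pool.Agent.P.MP_119182_lc.CO
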