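import Pool.Agent.P.MP_119182_lc.CO.T0
import Pool.Agent.P.MP_119182_lc.CO.T1

/-! The bound for all links of a frame. -/

set_option autoImplicit false

namespace Pool.Agent.P.MP_119182_lc.CO

open Finset
open scoped Classical

theorem as_type (c : Core) (n : ℕ) (sl : ℤ → ℕ) (hn : ∀ y, sl y < n) (t : ℕ) (u : ℤ)
    (h : c.Sep sl 0 t u) : ∃ s, s < n ∧ (c.T0 sl s t u ∨ c.T1 sl s t u) := by
  have hno : ¬ c.Sep sl n t u := by
    intro hs
    have h1 : sl u / 2 ^ n = 0 := Nat.div_eq_of_lt (lt_trans (hn u) Nat.lt_two_pow_self)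
    have := hs.2
    rw [h1] at this
    exact Nat.not_lt_zero _ this
  have hex : ∃ s, ¬ c.Sep sl s t u := ⟨n, hno⟩
  have h1 := Nat.find_spec hex
  have h2 : Nat.find hex ≤ n := Nat.find_min' hex hno
  have h3 : Nat.find hex ≠ 0 := fun h0 => h1 (h0 ▸ h)
  obtain ⟨s, hs⟩ := Nat.exists_eq_succ_of_ne_zero h3
  have h4 : c.Sep sl s t u := by
    have := Nat.find_min hex (m := s) (by omega)
    exact not_not.mp this
  rw [hs] at h1 h2
  refine ⟨s, h2, ?_⟩
  have h5 : sl (c.x t) ≤ sl (c.lo t u) := by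
    have := h.1
    simp only [pow_zero, Nat.div_one] at this
    exact this.le
  have h6 : sl (c.lo t u) ≤ sl u := by
    have := h.2
    simp only [pow_zero, Nat.div_one] at this
    exact this.le
  have h7 : sl (c.x t) / 2 ^ (s + 1) ≤ sl (c.lo t u) / 2 ^ (s + 1) := Nat.div_le_div_right h5
  have h8 : sl (c.lo t u) / 2 ^ (s + 1) ≤ sl u / 2 ^ (s + 1) := Nat.div_le_div_right h6
  unfold Core.T0 Core.T1
  unfold Core.Sep at h1
  rw [Nat.succ_eq_add_one] at h1
  by_cases h9 : sl (c.lo t u) / 2 ^ (s + 1) = sl u / 2 ^ (s + 1)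
  · exact Or.inl ⟨h4, h9⟩
  · exact Or.inr ⟨h4, by omega⟩

theorem coreBound : CoreBound := by
  obtain ⟨C0, h0⟩ := type0
  obtain ⟨C1, h1⟩ := type1
  refine ⟨C0 + C1, fun K c n sl hok hsl hn => ?_⟩
  have e0 := h0 K c n sl hok hsl hn
  have e1 := h1 K c n sl hok hsl hn
  have e2 : c.cnt sl ≤ c.cnt0 sl n + c.cnt1 sl n := by
    unfold Core.cnt Core.cnt0 Core.cnt1
    rw [sum_comm (s := range n), sum_comm (s := range n), ← sum_add_distrib]
    refine sum_le_sum fun t _ => ?_
    rw [← sum_add_distrib]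
    refine le_trans (card_le_card (t := (range n).biUnion fun s =>
      ((c.U t).filter fun u => c.T0 sl s t u) ∪ ((c.U t).filter fun u => c.T1 sl s t u)) ?_)
      (le_trans card_biUnion_le (sum_le_sum fun s _ => card_union_le _ _))
    intro u hu
    rw [mem_filter] at hu
    obtain ⟨s, hs, h⟩ := as_type c n sl hn t u hu.2
    simp only [mem_biUnion, mem_range, mem_union, mem_filter]
    exact ⟨s, hs, h.imp (fun h => ⟨hu.1, h⟩) (fun h => ⟨hu.1, h⟩)⟩
  have e3 := Nat.mul_le_mul_left K e2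
  nlinarith

theorem corePaid : CorePaid := by
  obtain ⟨C, h⟩ := coreBound
  refine ⟨2 * C, fun K c n sl hok hsl hn hsep => ?_⟩
  set Pd : ℕ → Finset ℤ := fun t => if 4 ≤ (c.U t).card then c.U t else ∅ with hPd
  have hsub : ∀ t, ∀ u ∈ Pd t, u ∈ c.U t := by
    intro t u hu
    simp only [hPd] at hu
    split_ifs at hu
    · exact hu
    · simp at hu
  let c' : Core := { c with U := Pd }
  have hok' : c'.OK :=
    { mono := hok.mono
      le := hok.le
      lk := fun t u hu => hok.lk t u (hsub t u hu)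
      same := fun t u hu v hv => hok.same t u (hsub t u hu) v (hsub t v hv)
      frU := fun t t' u hu v hv => hok.frU t t' u (hsub t u hu) v (hsub t' v hv)
      frL := fun t t' u hu v hv => hok.frL t t' u (hsub t u hu) v (hsub t' v hv)
      on := fun t t' u hu v hv => hok.on t t' u (hsub t u hu) v (hsub t' v hv)
      hid := fun z t t' u hu v hv h1 h2 h3 h4 =>
        hok.hid z t t' u (hsub t u hu) v (hsub t' v hv) h1 h2 h3
          (by obtain ⟨y, hy⟩ := h4; exact ⟨y, hsub z y hy⟩) }
  have e := h K c' n sl hok' hsl hn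
  have e1 : c'.cnt sl = ∑ t ∈ c.A, (Pd t).card := by
    unfold Core.cnt
    refine sum_congr rfl fun t _ => ?_
    congr 1
    refine filter_true_of_mem fun u hu => ?_
    have := hsep t u (hsub t u hu)
    unfold Core.Sep
    simpa using this
  have e2 : 4 * c'.own ≤ ∑ t ∈ c.A, (Pd t).card := by
    unfold Core.own
    rw [card_filter, mul_sum]
    refine sum_le_sum fun t _ => ?_
    change 4 * (if (Pd t).Nonempty then 1 else 0) ≤ _
    simp only [hPd]
    split_ifs with h1 h2 h2
    · omega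
    · omega
    · simp at h2
    · omega
  refine ⟨Pd, fun t => ⟨fun u hu => hsub t u hu, ?_⟩, ?_⟩
  · simp only [hPd]
    split_ifs with h1
    · simp
    · simp only [sdiff_empty]
      omega
  · rw [e1] at e
    have e3 : c'.N = c.N := rfl
    have e4 : c'.Zs = c.Zs := rfl
    rw [e3, e4] at e
    have e5 := Nat.mul_le_mul_left K e2
    nlinarith

end Pool.Agent.P.MP_119182_lc.CO
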