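import Mathlib

/-! A tree-free counting frame for links at a monotone anchor. -/

set_option autoImplicit false

namespace Pool.Agent.P.MP_119182_lc.CO

open Finset
open scoped Classical

/-- Times `A`, a monotone anchor `x`, path nodes `P t` below `r t`, upper nodes `U t` of links
and their lower nodes `lo t u`, lift times `Zs` with lifted nodes `lf`. -/
structure Core where
  A : Finset ℕ
  x : ℕ → ℤ
  P : ℕ → Finset ℤ
  r : ℕ → ℤ
  U : ℕ → Finset ℤ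
  lo : ℕ → ℤ → ℤ
  Zs : Finset ℕ
  lf : ℕ → ℤ

namespace Core

variable (c : Core)

/-- The hypotheses on a frame. -/
structure OK : Prop where
  mono : Monotone c.x
  le : ∀ t, ∀ y ∈ c.P t, y ≤ c.r t
  lk : ∀ t, ∀ u ∈ c.U t, u ∈ c.P t ∧ c.lo t u ∈ c.P t ∧ c.lo t u < u
  same : ∀ t, ∀ u ∈ c.U t, ∀ v ∈ c.U t, u < v → u < c.lo t v
  frU : ∀ t t', ∀ u ∈ c.U t, ∀ v ∈ c.U t', t < t' → c.x t' < c.lo t u → c.lo t u < v → u < v
  frL : ∀ t t', ∀ u ∈ c.U t, ∀ v ∈ c.U t', t < t' → c.x t' < c.lo t u →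
    c.lo t u < c.lo t' v → u < c.lo t' v
  on : ∀ t t', ∀ u ∈ c.U t, ∀ v ∈ c.U t', t < t' → c.x t' < c.lo t u → c.lo t u < v →
    v ∈ c.P t ∨ c.r t < v
  hid : ∀ z t t', ∀ u ∈ c.U t, ∀ v ∈ c.U t', z < t → t < t' → c.x t' < c.lo t u →
    (c.U z).Nonempty → v < c.r z → c.r t < v → ∃ q ∈ c.Zs, z ≤ q ∧ q < t ∧ c.lf q = v

/-- The total size of the paths. -/
noncomputable def N : ℕ := ∑ t ∈ c.A, (c.P t).card

/-- The number of times with a link. -/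
noncomputable def own : ℕ := (c.A.filter fun t => (c.U t).Nonempty).card

/-- The link of `u` at time `t` has anchor, lower and upper node in three cells of scale `s`. -/
def Sep (sl : ℤ → ℕ) (s t : ℕ) (u : ℤ) : Prop :=
  sl (c.x t) / 2 ^ s < sl (c.lo t u) / 2 ^ s ∧ sl (c.lo t u) / 2 ^ s < sl u / 2 ^ s

/-- Type 1 at scale `s`: anchor and lower node merge at the next scale. -/
def T1 (sl : ℤ → ℕ) (s t : ℕ) (u : ℤ) : Prop :=
  c.Sep sl s t u ∧ sl (c.x t) / 2 ^ (s + 1) = sl (c.lo t u) / 2 ^ (s + 1)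

/-- Type 0 at scale `s`: lower and upper node merge at the next scale. -/
def T0 (sl : ℤ → ℕ) (s t : ℕ) (u : ℤ) : Prop :=
  c.Sep sl s t u ∧ sl (c.lo t u) / 2 ^ (s + 1) = sl u / 2 ^ (s + 1)

/-- The number of links with three different slots. -/
noncomputable def cnt (sl : ℤ → ℕ) : ℕ :=
  ∑ t ∈ c.A, ((c.U t).filter fun u => c.Sep sl 0 t u).card

/-- The number of type 1 links of scales below `S`. -/
noncomputable def cnt1 (sl : ℤ → ℕ) (S : ℕ) : ℕ :=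
  ∑ s ∈ range S, ∑ t ∈ c.A, ((c.U t).filter fun u => c.T1 sl s t u).card

/-- The number of type 0 links of scales below `S`. -/
noncomputable def cnt0 (sl : ℤ → ℕ) (S : ℕ) : ℕ :=
  ∑ s ∈ range S, ∑ t ∈ c.A, ((c.U t).filter fun u => c.T0 sl s t u).card

end Core

/-- The bound for type 1 links. -/
def Type1 : Prop :=
  ∃ C : ℕ, ∀ (K : ℕ) (c : Core) (n : ℕ) (sl : ℤ → ℕ), c.OK → Monotone sl → (∀ y, sl y < n) →
    K * c.cnt1 sl n ≤ c.N + c.Zs.card + K * c.own + C * (K + 1) ^ 6 * n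

/-- The bound for type 0 links. -/
def Type0 : Prop :=
  ∃ C : ℕ, ∀ (K : ℕ) (c : Core) (n : ℕ) (sl : ℤ → ℕ), c.OK → Monotone sl → (∀ y, sl y < n) →
    K * c.cnt0 sl n ≤ c.N + c.Zs.card + K * c.own + C * (K + 1) ^ 6 * n

/-- The bound for all links with three different slots. -/
def CoreBound : Prop :=
  ∃ C : ℕ, ∀ (K : ℕ) (c : Core) (n : ℕ) (sl : ℤ → ℕ), c.OK → Monotone sl → (∀ y, sl y < n) →
    K * c.cnt sl ≤ 2 * (c.N + c.Zs.card) + 2 * K * c.own + C * (K + 1) ^ 6 * n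

/-- The same with paid sets: at most three links per time stay unpaid. -/
def CorePaid : Prop :=
  ∃ C : ℕ, ∀ (K : ℕ) (c : Core) (n : ℕ) (sl : ℤ → ℕ), c.OK → Monotone sl → (∀ y, sl y < n) →
    (∀ t, ∀ u ∈ c.U t, sl (c.x t) < sl (c.lo t u) ∧ sl (c.lo t u) < sl u) →
    ∃ Pd : ℕ → Finset ℤ, (∀ t, Pd t ⊆ c.U t ∧ (c.U t \ Pd t).card ≤ 3) ∧
      K * ∑ t ∈ c.A, (Pd t).card ≤ 4 * (c.N + c.Zs.card) + C * (K + 1) ^ 6 * n

end Pool.Agent.P.MP_119182_lc.CO
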