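import Mathlib

/-! Counting lemma for top links. -/

set_option autoImplicit false
set_option linter.dupNamespace false

namespace Pool.Agent.P.MP_119182_lc.CO

open Finset
open scoped Classical

/-- Top links as pairs (time, scale). -/
structure TD where
  T : Finset (ℕ × ℕ)
  P : ℕ → Finset ℤ
  r : ℕ → ℤ
  u : ℕ × ℕ → ℤ
  cc : ℕ → ℤ → ℕ
  al : ℕ → ℕ → ℕ → Prop
  K : ℕ
  Ts : ℕ → Prop
  Zs : Finset ℕ
  lf : ℕ → ℤ
  M : ℕ

namespace TD

variable (d : TD)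

/-- The cell of a pair. -/
def C (l : ℕ × ℕ) : ℕ := d.cc l.2 (d.r l.1)

/-- The fibre of a pair. -/
def fb (l : ℕ × ℕ) : ℕ × ℕ := (l.2, d.C l)

/-- The fibre of `l` is alive at time `t`. -/
def Al (l : ℕ × ℕ) (t : ℕ) : Prop := d.al l.2 (d.C l) t

/-- The path of time `t` goes beyond the cell of `l`. -/
def Ov (l : ℕ × ℕ) (t : ℕ) : Prop := d.Ts t ∧ d.C l < d.cc l.2 (d.r t)

/-- The hypotheses. -/
structure OK : Prop where
  mono : ∀ s, Monotone (d.cc s)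
  nest : ∀ σ s a b, σ ≤ s → d.cc σ a ≤ d.cc σ b → d.cc s a ≤ d.cc s b
  anti : ∀ s c t t', t ≤ t' → d.al s c t' → d.al s c t
  rt : ∀ l ∈ d.T, d.Ts l.1
  own : ∀ l ∈ d.T, d.Al l l.1
  up : ∀ l ∈ d.T, d.u l ∈ d.P l.1 ∧ d.cc l.2 (d.u l) = d.C l
  star : ∀ l ∈ d.T, ∀ l' ∈ d.T, l'.2 < l.2 → d.cc l.2 (d.r l'.1) = d.C l → l.1 ≤ l'.1 →
    d.Al l l'.1 → d.cc l'.2 (d.u l) < d.C l'
  inc : ∀ l ∈ d.T, ∀ l' ∈ d.T, d.fb l' = d.fb l → l.1 < l'.1 → d.u l < d.u l'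
  onl : ∀ l ∈ d.T, ∀ l' ∈ d.T, d.fb l' = d.fb l → l.1 ≤ l'.1 → d.u l' < d.r l.1 → d.u l' ∈ d.P l.1
  ur : ∀ l ∈ d.T, d.u l ≤ d.r l.1
  hid : ∀ l ∈ d.T, ∀ l' ∈ d.T, ∀ t, d.fb l' = d.fb l → l.1 < l'.1 → t < l.1 → d.Ov l t →
    d.u l' ∉ d.P l.1 → ∃ z ∈ d.Zs, t ≤ z ∧ z < l.1 ∧ d.lf z = d.u l'
  good : ∀ l ∈ d.T, ((d.P l.1).filter fun y => d.cc l.2 y = d.C l).card ≤ d.M * (l.2 + 1) ^ 2

/-- Candidates for the target scale. -/
def Cand (l : ℕ × ℕ) (σ : ℕ) : Prop :=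
  σ < l.2 ∧ ∃ t, l.1 ≤ t ∧ (t, σ) ∈ d.T ∧ d.C (t, σ) = d.C (l.1, σ) ∧ d.Al l t

/-- The target, as a pair at the time of `l`. -/
noncomputable def tg (l : ℕ × ℕ) : ℕ × ℕ := (l.1, Nat.findGreatest (d.Cand l) l.2)

/-- The path nodes between the upper node and the target cell. -/
noncomputable def Seg (l : ℕ × ℕ) : Finset ℤ :=
  (d.P l.1).filter fun y => d.u l ≤ y ∧ d.cc (d.tg l).2 y < d.C (d.tg l)

/-- Light links. -/
def Light (l : ℕ × ℕ) : Prop := (∃ σ, d.Cand l σ) ∧ (d.Seg l).card ≤ d.K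

/-- Forward links. -/
def Fwd (l : ℕ × ℕ) : Prop := ∃ t, l.1 < t ∧ d.Al l t ∧ d.Ov (d.tg l) t

/-- Ends of runs. -/
def En (l : ℕ × ℕ) : Prop :=
  ∀ l' ∈ d.T, d.fb l' = d.fb l → l.1 < l'.1 → ∃ t, l.1 < t ∧ t < l'.1 ∧ d.Ov l t

/-- Starts of runs. -/
def St (l : ℕ × ℕ) : Prop :=
  ∃ t, t < l.1 ∧ d.Ov l t ∧ ∀ l' ∈ d.T, d.fb l' = d.fb l → t ≤ l'.1 → l.1 ≤ l'.1

/-- Pairs of a fibre and a smaller scale. -/
noncomputable def W : Finset ((ℕ × ℕ) × ℕ) :=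
  (d.T.image d.fb).biUnion fun f => (range f.1).image fun σ => (f, σ)

variable {d}

theorem mem_W {l : ℕ × ℕ} {σ : ℕ} (hl : l ∈ d.T) (h : σ < l.2) : (d.fb l, σ) ∈ d.W :=
  mem_biUnion.2 ⟨_, mem_image_of_mem _ hl, mem_image_of_mem _ (mem_range.2 h)⟩

theorem card_W : d.W.card ≤ ∑ f ∈ d.T.image d.fb, f.1 :=
  card_biUnion_le.trans (sum_le_sum fun _ _ => card_image_le.trans (card_range _).le)

theorem fb_eq {l l' : ℕ × ℕ} (h : d.fb l' = d.fb l) : l'.2 = l.2 ∧ d.C l' = d.C l :=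
  Prod.mk.inj h

theorem al_fb {l l' : ℕ × ℕ} (h : d.fb l' = d.fb l) {t : ℕ} (a : d.Al l t) : d.Al l' t := by
  unfold Al at *
  rwa [(fb_eq h).1, (fb_eq h).2]

theorem ov_fb {l l' : ℕ × ℕ} (h : d.fb l' = d.fb l) {t : ℕ} (a : d.Ov l t) : d.Ov l' t := by
  unfold Ov at *
  rwa [(fb_eq h).1, (fb_eq h).2]

theorem cand_le {l : ℕ × ℕ} {σ : ℕ} (h : d.Cand l σ) : σ ≤ (d.tg l).2 :=
  Nat.le_findGreatest h.1.le h

theorem cand_tg {l : ℕ × ℕ} (h : ∃ σ, d.Cand l σ) : d.Cand l (d.tg l).2 :=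
  let ⟨_, h⟩ := h
  Nat.findGreatest_spec h.1.le h

variable (H : d.OK)
include H

theorem nest_eq {σ s : ℕ} {a b : ℤ} (h : σ ≤ s) (e : d.cc σ a = d.cc σ b) :
    d.cc s a = d.cc s b := le_antisymm (H.nest σ s a b h e.le) (H.nest σ s b a h e.ge)

theorem nest_lt {σ s : ℕ} {a b : ℤ} (h : σ ≤ s) (e : d.cc s a < d.cc s b) :
    d.cc σ a < d.cc σ b := not_le.1 fun k => not_le.2 e (H.nest σ s b a h k)

theorem le_of_not_ov {l l' : ℕ × ℕ} (hl : l' ∈ d.T) (h : ¬ d.Ov l l'.1) :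
    d.cc l.2 (d.r l'.1) ≤ d.C l := not_lt.1 fun k => h ⟨H.rt l' hl, k⟩

theorem u_lt {l : ℕ × ℕ} (hl : l ∈ d.T) (h : ∃ σ, d.Cand l σ) :
    d.cc (d.tg l).2 (d.u l) < d.C (d.tg l) := by
  obtain ⟨a, t, b, c, e, f⟩ := cand_tg h
  exact (H.star l hl _ c a (nest_eq H a.le e) b f).trans_eq e

theorem u_inj {B : Finset (ℕ × ℕ)} (hB : B ⊆ d.T) {f : ℕ × ℕ} (h : ∀ l ∈ B, d.fb l = f) :
    Set.InjOn d.u B := fun a ha b hb e => by
  have k := (h a ha).trans (h b hb).symm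
  rcases lt_trichotomy a.1 b.1 with c | c | c
  · exact absurd e (H.inc a (hB ha) b (hB hb) k.symm c).ne
  · exact Prod.ext c (fb_eq k).1
  · exact absurd e (H.inc b (hB hb) a (hB ha) k c).ne'

theorem cp {B : Finset (ℕ × ℕ)} (hB : B ⊆ d.T) {l : ℕ × ℕ} (hl : l ∈ d.T) (hL : d.Light l)
    (h : ∀ l' ∈ B, d.fb l' = d.fb l ∧ l.1 ≤ l'.1 ∧ d.cc (d.tg l).2 (d.u l') < d.C (d.tg l)) :
    B.card ≤ d.K := by
  refine le_trans (card_le_card_of_injOn d.u (fun a ha => ?_)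
    (u_inj H hB fun a ha => (h a ha).1)) hL.2
  obtain ⟨a1, a2, a3⟩ := h a ha
  refine mem_coe.2 (mem_filter.2 ⟨H.onl l hl a (hB ha) a1 a2
    (not_le.1 fun k => not_le.2 a3 (H.mono _ k)), ?_, a3⟩)
  rcases a2.eq_or_lt with c | c
  · rw [show a = l from Prod.ext c.symm (fb_eq a1).1]
  · exact (H.inc l hl a (hB ha) a1 c).le

theorem cp' {B : Finset (ℕ × ℕ)} (hB : B ⊆ d.T) (hL : ∀ l ∈ B, d.Light l)
    (h : ∀ l ∈ B, ∀ l' ∈ B, l.1 ≤ l'.1 →
      d.fb l' = d.fb l ∧ d.cc (d.tg l).2 (d.u l') < d.C (d.tg l)) : B.card ≤ d.K := by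
  rcases B.eq_empty_or_nonempty with rfl | hne
  · simp
  obtain ⟨l, hl, hm⟩ := exists_min_image B Prod.fst hne
  exact cp H hB (hB hl) (hL l hl) fun l' hl' =>
    ⟨(h l hl l' hl' (hm l' hl')).1, hm l' hl', (h l hl l' hl' (hm l' hl')).2⟩

omit H in
theorem cand_same {l l' : ℕ × ℕ} (H : d.OK) (hl : l ∈ d.T) (hl' : l' ∈ d.T) (e : l'.1 = l.1)
    (h : l'.2 < l.2) : d.Cand l l'.2 :=
  ⟨h, l.1, le_rfl, e ▸ hl', rfl, H.own l hl⟩

theorem inj_noT : Set.InjOn Prod.fst {l | l ∈ d.T ∧ ¬ ∃ σ, d.Cand l σ} :=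
  fun a ⟨a1, a2⟩ b ⟨b1, b2⟩ e => by
    rcases lt_trichotomy a.2 b.2 with c | c | c
    · exact absurd ⟨_, cand_same H b1 a1 e c⟩ b2
    · exact Prod.ext e c
    · exact absurd ⟨_, cand_same H a1 b1 e.symm c⟩ a2

theorem card_heavy : d.K * (d.T.filter fun l => (∃ σ, d.Cand l σ) ∧ ¬ d.Light l).card ≤
    ∑ t ∈ d.T.image Prod.fst, (d.P t).card := by
  set B := d.T.filter fun l => (∃ σ, d.Cand l σ) ∧ ¬ d.Light l
  have key : ∀ a ∈ d.T, ∀ b ∈ d.T, a.1 = b.1 → a.2 < b.2 → Disjoint (d.Seg a) (d.Seg b) := by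
    intro a ha b hb e c
    refine disjoint_left.2 fun y y1 y2 => ?_
    have a1 := H.mono a.2 (mem_filter.1 y1).2.1
    rw [(H.up a ha).2, C, e] at a1
    exact not_le.2 (mem_filter.1 y2).2.2
      (H.nest _ _ _ _ (cand_le (cand_same H hb ha e c)) a1)
  rw [card_eq_sum_card_fiberwise (f := Prod.fst) (s := B) (t := d.T.image Prod.fst)
    (fun a ha => mem_coe.2 (mem_image_of_mem _ (mem_filter.1 (mem_coe.1 ha)).1)), mul_sum]
  refine sum_le_sum fun t _ => ?_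
  calc d.K * (B.filter fun a => a.1 = t).card
      ≤ ∑ a ∈ B.filter fun a => a.1 = t, (d.Seg a).card := by
        rw [mul_comm, ← smul_eq_mul]
        refine card_nsmul_le_sum _ _ _ fun a ha => ?_
        obtain ⟨-, a1, a2⟩ := mem_filter.1 (mem_filter.1 ha).1
        exact (not_le.1 fun k => a2 ⟨a1, k⟩).le
    _ = ((B.filter fun a => a.1 = t).biUnion d.Seg).card := by
        refine (card_biUnion fun a ha b hb ne => ?_).symm
        obtain ⟨a1, a2⟩ := mem_filter.1 (mem_coe.1 ha)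
        obtain ⟨b1, b2⟩ := mem_filter.1 (mem_coe.1 hb)
        have e := a2.trans b2.symm
        rcases lt_trichotomy a.2 b.2 with c | c | c
        · exact key a (mem_filter.1 a1).1 b (mem_filter.1 b1).1 e c
        · exact absurd (Prod.ext e c) ne
        · exact (key b (mem_filter.1 b1).1 a (mem_filter.1 a1).1 e.symm c).symm
    _ ≤ (d.P t).card := card_le_card (biUnion_subset.2 fun a ha => by
        rw [← (mem_filter.1 ha).2]
        exact filter_subset _ _)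

theorem card_nf : (d.T.filter fun l => d.Light l ∧ ¬ d.Fwd l).card ≤ d.K * d.W.card := by
  refine card_le_mul_card_image_of_maps_to (f := fun l => (d.fb l, (d.tg l).2)) (fun a ha => ?_) _
    fun w _ => cp' H (fun a ha => (mem_filter.1 (mem_filter.1 ha).1).1)
      (fun a ha => (mem_filter.1 (mem_filter.1 ha).1).2.1) fun a ha b hb c => ?_
  · obtain ⟨a1, a2, -⟩ := mem_filter.1 ha
    exact mem_W a1 (cand_tg a2.1).1
  · obtain ⟨a0, a4⟩ := mem_filter.1 ha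
    obtain ⟨b0, b4⟩ := mem_filter.1 hb
    obtain ⟨a1, a2, a3⟩ := mem_filter.1 a0
    obtain ⟨b1, b2, -⟩ := mem_filter.1 b0
    obtain ⟨e1, e2⟩ := Prod.mk.inj (b4.trans a4.symm)
    refine ⟨e1, ?_⟩
    have k := u_lt H b1 b2.1
    rw [C, e2] at k
    refine k.trans_le ?_
    rcases c.eq_or_lt with c | c
    · exact (congrArg (fun t => d.cc (d.tg a).2 (d.r t)) c).ge
    · exact le_of_not_ov H (l := d.tg a) (l' := b) b1 fun o => a3 ⟨b.1, c, al_fb e1.symm (H.own b b1), o⟩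

theorem exists_key {l : ℕ × ℕ} (hL : d.Light l) (hF : d.Fwd l) :
    ∃ k ∈ d.T, (d.En k ∨ d.St k) ∧ l.1 ≤ k.1 ∧ d.fb k = d.fb (d.tg l) ∧ d.Al l k.1 := by
  obtain ⟨ξ, f1, f2, f3⟩ := hF
  obtain ⟨-, t, c1, c2, c3, c4⟩ := cand_tg hL.1
  have no : ∀ k ∈ d.T, d.fb k = d.fb (d.tg l) → k.1 ≠ ξ := fun k _ e c =>
    lt_irrefl (d.C k) (c ▸ ov_fb e f3 : d.Ov k k.1).2
  by_cases h : (d.T.filter fun k => d.fb k = d.fb (d.tg l) ∧ l.1 ≤ k.1 ∧ k.1 < ξ).Nonempty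
  · obtain ⟨k, hk, hm⟩ := exists_max_image _ Prod.fst h
    obtain ⟨k1, k2, k3, k4⟩ := mem_filter.1 hk
    refine ⟨k, k1, Or.inl fun b hb e c => ⟨ξ, k4, ?_, ov_fb k2 f3⟩, k3, k2,
      H.anti _ _ _ _ k4.le f2⟩
    refine lt_of_le_of_ne (not_lt.1 fun g => ?_) (no b hb (e.trans k2)).symm
    exact not_le.2 c (hm b (mem_filter.2 ⟨hb, e.trans k2, k3.trans c.le, g⟩))
  · obtain ⟨k, hk, hm⟩ := exists_min_image (d.T.filter fun k => d.fb k = d.fb (d.tg l) ∧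
      l.1 ≤ k.1) Prod.fst ⟨(t, (d.tg l).2), mem_filter.2 ⟨c2, Prod.ext rfl c3, c1⟩⟩
    obtain ⟨k1, k2, k3⟩ := mem_filter.1 hk
    refine ⟨k, k1, Or.inr ⟨ξ, lt_of_le_of_ne (not_lt.1 fun g => h ⟨k, mem_filter.2
      ⟨k1, k2, k3, g⟩⟩) (no k k1 k2).symm, ov_fb k2 f3, fun b hb e c =>
      hm b (mem_filter.2 ⟨hb, e.trans k2, f1.le.trans c⟩)⟩, k3, k2, H.anti _ _ _ _
      (hm _ (mem_filter.2 ⟨c2, Prod.ext rfl c3, c1⟩)) c4⟩

theorem card_fw : (d.T.filter fun l => d.Light l ∧ d.Fwd l).card ≤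
    d.K * ((d.T.filter fun k => d.En k ∨ d.St k).card + d.K * (d.T.filter d.En).card +
      2 * d.K * d.W.card) := by
  set FW := d.T.filter fun l => d.Light l ∧ d.Fwd l
  have fT : ∀ l ∈ FW, l ∈ d.T := fun l h => (mem_filter.1 h).1
  have fL : ∀ l ∈ FW, d.Light l := fun l h => (mem_filter.1 h).2.1
  choose! κ k1 k2 k3 k4 k5 using fun l (h : l ∈ FW) => exists_key H (fL l h) (mem_filter.1 h).2.2
  have k6 : ∀ l ∈ FW, (κ l).2 < l.2 := fun l h => (fb_eq (k4 l h)).1 ▸ (cand_tg (fL l h).1).1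
  have cs : ∀ l ∈ FW, ∀ s, (κ l).2 ≤ s → d.cc s (d.r l.1) = d.cc s (d.r (κ l).1) :=
    fun l h s hs => nest_eq H hs (by
      have := (fb_eq (k4 l h)).2
      rw [C, C, ← (fb_eq (k4 l h)).1] at this
      exact this.symm)
  have nt : ∀ l ∈ FW, ∀ b ∈ d.T, (κ l).2 < b.2 → b.2 < l.2 → d.Al l b.1 →
      d.C b = d.cc b.2 (d.r (κ l).1) → b.1 < l.1 := fun l h b hb a1 a2 a3 a4 =>
    not_le.1 fun c => not_le.2 a1 ((cand_le ⟨a2, b.1, c, hb,
      a4.trans (cs l h _ a1.le).symm, a3⟩).trans (fb_eq (k4 l h)).1.ge)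
  set Cl := FW.image fun l => (κ l, l.2)
  have s1 : FW.card ≤ d.K * Cl.card := by
    refine card_le_mul_card_image _ _ fun z _ => cp' H (fun a ha => fT a (mem_filter.1 ha).1)
      (fun a ha => fL a (mem_filter.1 ha).1) fun a ha b hb _ => ?_
    obtain ⟨a1, a2⟩ := mem_filter.1 ha
    obtain ⟨b1, b2⟩ := mem_filter.1 hb
    obtain ⟨e1, e2⟩ := Prod.mk.inj (b2.trans a2.symm)
    have e3 := fb_eq ((k4 b b1).symm.trans (e1 ▸ k4 a a1))
    refine ⟨Prod.ext e2 ?_, e3.1 ▸ e3.2 ▸ u_lt H (fT b b1) (fL b b1).1⟩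
    exact (cs b b1 _ (k6 b b1).le).trans (by rw [e1, e2]; exact (cs a a1 _ (k6 a a1).le).symm)
  choose! ρ r1 r2 using fun z (h : z ∈ Cl) => mem_image.1 h
  have r3 : ∀ z ∈ Cl, κ (ρ z) = z.1 := fun z h => congrArg Prod.fst (r2 z h)
  have r4 : ∀ z ∈ Cl, (ρ z).2 = z.2 := fun z h => congrArg Prod.snd (r2 z h)
  set NM := Cl.filter fun z => ∃ s, s < z.2 ∧ (z.1, s) ∈ Cl
  have nC : ∀ z ∈ NM, z ∈ Cl := fun z h => (mem_filter.1 h).1
  have s2 : (Cl.filter fun z => ¬ ∃ s, s < z.2 ∧ (z.1, s) ∈ Cl).card ≤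
      (d.T.filter fun k => d.En k ∨ d.St k).card := by
    refine card_le_card_of_injOn Prod.fst (fun z hz => ?_) fun a ha b hb e => ?_
    · have := (mem_filter.1 (mem_coe.1 hz)).1
      exact mem_coe.2 (mem_filter.2 (r3 z this ▸ ⟨k1 _ (r1 z this), k2 _ (r1 z this)⟩))
    · obtain ⟨a1, a2⟩ := mem_filter.1 (mem_coe.1 ha)
      obtain ⟨b1, b2⟩ := mem_filter.1 (mem_coe.1 hb)
      rcases lt_trichotomy a.2 b.2 with c | c | c
      · exact absurd ⟨_, c, e ▸ a1⟩ b2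
      · exact Prod.ext e c
      · exact absurd ⟨_, c, e ▸ b1⟩ a2
  have hp : ∀ z ∈ NM, ∃ s, s < z.2 ∧ (z.1, s) ∈ Cl ∧ ∀ s', s' < z.2 → (z.1, s') ∈ Cl → s' ≤ s :=
    fun z h => by
      obtain ⟨s, a⟩ := (mem_filter.1 h).2
      have := Nat.findGreatest_spec (P := fun s => s < z.2 ∧ (z.1, s) ∈ Cl) a.1.le a
      exact ⟨_, this.1, this.2, fun s' b c => Nat.le_findGreatest b.le ⟨b, c⟩⟩
  choose! pv p1 p2 p3 using hp
  set lam : (ℕ × ℕ) × ℕ → ℕ × ℕ := fun z => ρ (z.1, pv z)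
  have l1 : ∀ z ∈ NM, lam z ∈ FW := fun z h => r1 _ (p2 z h)
  have l2 : ∀ z ∈ NM, κ (lam z) = κ (ρ z) := fun z h => (r3 _ (p2 z h)).trans (r3 z (nC z h)).symm
  have l3 : ∀ z ∈ NM, (lam z).2 = pv z := fun z h => r4 _ (p2 z h)
  have l4 : ∀ z ∈ NM, (lam z).2 < (ρ z).2 := fun z h => l3 z h ▸ r4 z (nC z h) ▸ p1 z h
  have l5 : ∀ z ∈ NM, (κ (ρ z)).2 < (lam z).2 := fun z h => l2 z h ▸ k6 _ (l1 z h)
  have l6 : ∀ z ∈ NM, d.C (lam z) = d.cc (lam z).2 (d.r (κ (ρ z)).1) := fun z h =>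
    l2 z h ▸ cs _ (l1 z h) _ (k6 _ (l1 z h)).le
  have l7 : ∀ z ∈ NM, d.Al (ρ z) (lam z).1 := fun z h =>
    H.anti _ _ _ _ (l2 z h ▸ k3 _ (l1 z h)) (k5 _ (r1 z (nC z h)))
  have linj : Set.InjOn lam NM := fun a ha b hb e => by
    have e1 : a.1 = b.1 := by rw [← r3 a (nC a ha), ← r3 b (nC b hb), ← l2 a ha, ← l2 b hb, e]
    have e2 : pv a = pv b := by rw [← l3 a ha, ← l3 b hb, e]
    refine Prod.ext e1 (le_antisymm (not_lt.1 fun c => ?_) (not_lt.1 fun c => ?_))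
    · exact not_le.2 (p1 b hb) (e2 ▸ p3 a ha _ c (e1 ▸ nC b hb))
    · exact not_le.2 (p1 a ha) (e2 ▸ p3 b hb _ c (e1 ▸ nC a ha))
  have hg : ∀ z ∈ NM, ∃ g ∈ d.T, d.fb g = d.fb (lam z) ∧ d.Al (ρ z) g.1 ∧
      ∀ b ∈ d.T, d.fb b = d.fb (lam z) → d.Al (ρ z) b.1 → b.1 ≤ g.1 := fun z h => by
    obtain ⟨g, a, b⟩ := exists_max_image (d.T.filter fun b => d.fb b = d.fb (lam z) ∧
      d.Al (ρ z) b.1) Prod.fst ⟨lam z, mem_filter.2 ⟨fT _ (l1 z h), rfl, l7 z h⟩⟩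
    obtain ⟨a1, a2, a3⟩ := mem_filter.1 a
    exact ⟨g, a1, a2, a3, fun c c1 c2 c3 => b c (mem_filter.2 ⟨c1, c2, c3⟩)⟩
  choose! g g1 g2 g3 g4 using hg
  have g5 : ∀ z ∈ NM, (g z).1 < (ρ z).1 := fun z h => by
    obtain ⟨e1, e2⟩ := fb_eq (g2 z h)
    exact nt _ (r1 z (nC z h)) _ (g1 z h) (e1 ▸ l5 z h) (e1 ▸ l4 z h) (g3 z h)
      (e1 ▸ e2.trans (l6 z h))
  have z1 : ∀ B ⊆ NM, ∀ g0, (∀ z ∈ B, g z = g0) → B.card ≤ d.K := fun B hB g0 h => by
    rw [← card_image_of_injOn (linj.mono (coe_subset.2 hB))]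
    refine cp' H (image_subset_iff.2 fun z hz => fT _ (l1 z (hB hz)))
      (forall_mem_image.2 fun z hz => fL _ (l1 z (hB hz)))
      (forall_mem_image.2 fun a ha => forall_mem_image.2 fun b hb _ => ?_)
    have a1 := hB ha
    have b1 := hB hb
    have e : d.fb (lam b) = d.fb (lam a) := by rw [← g2 b b1, ← g2 a a1, h a ha, h b hb]
    have e3 := fb_eq (k4 _ (l1 a a1))
    refine ⟨e, e3.1 ▸ e3.2 ▸ H.star _ (fT _ (l1 b b1)) _ (k1 _ (l1 a a1))
      ((fb_eq e).1 ▸ k6 _ (l1 a a1)) ?_ ?_ (al_fb e (k5 _ (l1 a a1)))⟩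
    · rw [(fb_eq e).1, (fb_eq e).2, l6 a a1, l2 a a1]
    · have c1 := g4 b b1 _ (fT _ (l1 b b1)) rfl (l7 b b1)
      have c2 := g5 a a1
      have c3 := k3 _ (r1 a (nC a a1))
      rw [h b hb] at c1
      rw [h a ha] at c2
      rw [l2 a a1]
      omega
  have s3 : (NM.filter fun z => d.En (g z)).card ≤ d.K * (d.T.filter d.En).card :=
    card_le_mul_card_image_of_maps_to (f := g) (fun z hz => mem_filter.2
      ⟨g1 z (mem_filter.1 hz).1, (mem_filter.1 hz).2⟩) _ fun g0 _ =>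
      z1 _ (fun z hz => (mem_filter.1 (mem_filter.1 hz).1).1) g0 fun z hz => (mem_filter.1 hz).2
  have s4 : (NM.filter fun z => ¬ d.En (g z)).card ≤ 2 * d.K * d.W.card := by
    refine card_le_mul_card_image_of_maps_to (f := fun z => (d.fb (ρ z), (lam z).2))
      (fun z hz => mem_W (fT _ (r1 z (nC z (mem_filter.1 hz).1))) (l4 z (mem_filter.1 hz).1)) _
      fun w _ => ?_
    set B := (NM.filter fun z => ¬ d.En (g z)).filter fun z => (d.fb (ρ z), (lam z).2) = w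
    have bN : ∀ z ∈ B, z ∈ NM := fun z hz => (mem_filter.1 (mem_filter.1 hz).1).1
    rcases B.eq_empty_or_nonempty with e | hne
    · simp [e]
    obtain ⟨a, ha, hm⟩ := exists_min_image B (fun z => (ρ z).1) hne
    have a1 := bN a ha
    have eb : ∀ z ∈ B, d.fb (ρ z) = d.fb (ρ a) ∧ (lam z).2 = (lam a).2 := fun z hz =>
      Prod.mk.inj ((mem_filter.1 hz).2.trans (mem_filter.1 ha).2.symm)
    have u1 : (B.filter fun z => d.fb (lam z) = d.fb (lam a)).card ≤ d.K := by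
      refine z1 _ (fun z hz => bN z (mem_filter.1 hz).1) (g a) fun z hz => ?_
      obtain ⟨c1, c2⟩ := mem_filter.1 hz
      have c3 := bN z c1
      have c4 := (g2 z c3).trans c2
      exact Prod.ext (le_antisymm (g4 a a1 _ (g1 z c3) c4 (al_fb (eb z c1).1.symm (g3 z c3)))
        (g4 z c3 _ (g1 a a1) ((g2 a a1).trans c2.symm) (al_fb (eb z c1).1 (g3 a a1))))
        (fb_eq (c4.trans (g2 a a1).symm)).1
    have u2 : (B.filter fun z => ¬ d.fb (lam z) = d.fb (lam a)).card ≤ d.K := by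
      rw [← card_image_of_injOn (f := ρ) fun x hx y hy e => by
        rw [← r2 x (nC x (bN x (mem_filter.1 (mem_coe.1 hx)).1)),
          ← r2 y (nC y (bN y (mem_filter.1 (mem_coe.1 hy)).1)), e]]
      refine cp H (image_subset_iff.2 fun z hz => fT _ (r1 z (nC z (bN z (mem_filter.1 hz).1))))
        (fT _ (r1 a (nC a a1))) (fL _ (r1 a (nC a a1))) (forall_mem_image.2 fun z hz => ?_)
      obtain ⟨c1, c2⟩ := mem_filter.1 hz
      have c3 := bN z c1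
      have c4 := fT _ (r1 z (nC z c3))
      refine ⟨(eb z c1).1, hm z c1, nest_lt H (s := (lam a).2)
        ((fb_eq (k4 _ (r1 a (nC a a1)))).1 ▸ (l5 a a1).le) ?_⟩
      have v1 : d.cc (lam a).2 (d.r (ρ a).1) = d.C (lam a) :=
        (cs _ (r1 a (nC a a1)) _ (l5 a a1).le).trans (l6 a a1).symm
      have v2 : d.cc (lam a).2 (d.r (ρ z).1) = d.C (lam z) :=
        (eb z c1).2 ▸ (cs _ (r1 z (nC z c3)) _ (l5 z c3).le).trans (l6 z c3).symm
      have v3 : d.C (lam z) ≤ d.C (lam a) := by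
        have n := (mem_filter.1 (mem_filter.1 ha).1).2
        simp only [En, not_forall, not_exists, not_and] at n
        obtain ⟨b, b1, b2, b3, b4⟩ := n
        have b5 : (ρ z).1 < b.1 := not_le.1 fun c => not_le.2 b3 (g4 a a1 b b1
          (b2.trans (g2 a a1)) (H.anti _ _ _ _ c (al_fb (eb z c1).1.symm (H.own _ c4))))
        have := le_of_not_ov H c4 (b4 _ ((g5 a a1).trans_le (hm z c1)) b5)
        rwa [(fb_eq (g2 a a1)).1, (fb_eq (g2 a a1)).2, v2] at this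
      refine (H.mono _ (H.ur _ c4)).trans_lt ?_
      exact v2 ▸ (lt_of_le_of_ne v3 fun e => c2 (Prod.ext (eb z c1).2 e)).trans_eq v1.symm
    have := card_filter_add_card_filter_not (s := B) fun z => d.fb (lam z) = d.fb (lam a)
    omega
  have t1 := card_filter_add_card_filter_not (s := NM) fun z => d.En (g z)
  have t2 : NM.card + _ = Cl.card := card_filter_add_card_filter_not _
  exact s1.trans (Nat.mul_le_mul_left _ (by omega))

omit H in
theorem card_en : (d.T.filter d.En).card ≤ (d.T.image d.fb).card + (d.T.filter d.St).card := by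
  set E := d.T.filter d.En
  have u1 : (E.filter fun l => ¬ ∃ b ∈ d.T, d.fb b = d.fb l ∧ l.1 < b.1).card ≤
      (d.T.image d.fb).card := by
    refine card_le_card_of_injOn d.fb (fun a ha => mem_coe.2 (mem_image_of_mem _
      (mem_filter.1 (mem_filter.1 (mem_coe.1 ha)).1).1)) fun a ha b hb e => ?_
    obtain ⟨a1, a2⟩ := mem_filter.1 (mem_coe.1 ha)
    obtain ⟨b1, b2⟩ := mem_filter.1 (mem_coe.1 hb)
    rcases lt_trichotomy a.1 b.1 with c | c | c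
    · exact absurd ⟨b, (mem_filter.1 b1).1, e.symm, c⟩ a2
    · exact Prod.ext c (fb_eq e).1
    · exact absurd ⟨a, (mem_filter.1 a1).1, e, c⟩ b2
  set B := E.filter fun l => ∃ b ∈ d.T, d.fb b = d.fb l ∧ l.1 < b.1
  have hn : ∀ l ∈ B, ∃ b ∈ d.T, d.fb b = d.fb l ∧ l.1 < b.1 ∧
      ∀ b' ∈ d.T, d.fb b' = d.fb l → l.1 < b'.1 → b.1 ≤ b'.1 := fun l h => by
    obtain ⟨b, b1, b2⟩ := (mem_filter.1 h).2
    obtain ⟨g, a, m⟩ := exists_min_image (d.T.filter fun b => d.fb b = d.fb l ∧ l.1 < b.1)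
      Prod.fst ⟨b, mem_filter.2 ⟨b1, b2⟩⟩
    obtain ⟨a1, a2, a3⟩ := mem_filter.1 a
    exact ⟨g, a1, a2, a3, fun c c1 c2 c3 => m c (mem_filter.2 ⟨c1, c2, c3⟩)⟩
  choose! nx n1 n2 n3 n4 using hn
  have bT : ∀ l ∈ B, l ∈ d.T ∧ d.En l := fun l h => mem_filter.1 (mem_filter.1 h).1
  have u2 : B.card ≤ (d.T.filter d.St).card := by
    refine card_le_card_of_injOn nx (fun a ha => ?_) fun a ha b hb e => ?_
    · obtain ⟨t, t1, t2, t3⟩ := (bT a ha).2 _ (n1 a ha) (n2 a ha) (n3 a ha)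
      exact mem_coe.2 (mem_filter.2 ⟨n1 a ha, t, t2, ov_fb (n2 a ha) t3, fun b hb e c =>
        n4 a ha b hb (e.trans (n2 a ha)) (t1.trans_le c)⟩)
    · have k : d.fb a = d.fb b := by rw [← n2 a ha, ← n2 b hb, e]
      rcases lt_trichotomy a.1 b.1 with c | c | c
      · exact absurd (n4 a ha b (bT b hb).1 k.symm c) (not_le.2 (e ▸ n3 b hb))
      · exact Prod.ext c (fb_eq k).1
      · exact absurd (n4 b hb a (bT a ha).1 k c) (not_le.2 (e ▸ n3 a ha))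
  have : B.card + _ = E.card := card_filter_add_card_filter_not _
  exact this.ge.trans (add_comm B.card _ ▸ add_le_add u1 u2)

omit H in
theorem sum_scale {α : Type} (B : Finset α) (f : α → ℕ) (M X : ℕ)
    (h : ∀ s, M * (s + 1) ^ 2 * (B.filter fun a => f a = s).card ≤ X) : M * B.card ≤ 2 * X := by
  have k : ∀ S : ℕ, (M : ℝ) * ∑ s ∈ range S, ((B.filter fun a => f a = s).card : ℝ) ≤
      (2 - 2 / (S + 1)) * X := fun S => by
    induction S with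
    | zero => simp
    | succ S ih =>
      have a : (M : ℝ) * (S + 1) ^ 2 * (B.filter fun a => f a = S).card ≤ X := by
        exact_mod_cast h S
      have b : (M : ℝ) * (B.filter fun a => f a = S).card ≤ (2 / (S + 1) - 2 / (S + 1 + 1)) * X := by
        rw [div_sub_div _ _ (by positivity) (by positivity), div_mul_eq_mul_div,
          le_div_iff₀ (by positivity)]
        have : (0 : ℝ) ≤ M * (B.filter fun a => f a = S).card * (S * (S + 1)) := by positivity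
        nlinarith
      rw [sum_range_succ, mul_add]
      push_cast
      linarith
  have e := card_eq_sum_card_fiberwise (f := f) (s := B) (t := range (B.sup f + 1))
    fun a ha => mem_coe.2 (mem_range.2 (Nat.lt_succ_of_le (le_sup (mem_coe.1 ha))))
  have k2 := k (B.sup f + 1)
  rw [← Nat.cast_sum, ← e] at k2
  have : (0 : ℝ) ≤ 2 / ((B.sup f + 1 : ℕ) + 1) * X := by positivity
  exact_mod_cast (by linarith : (M : ℝ) * B.card ≤ 2 * X)

omit H in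
theorem sum_fib (F : Finset (ℕ × ℕ)) (D : ℕ) (h : ∀ f ∈ F, 0 < f.2 ∧ f.2 ≤ D / 2 ^ f.1) :
    ∑ f ∈ F, (f.1 + 1) ^ 2 ≤ 12 * D := by
  have k : ∀ S : ℕ, ∑ s ∈ range S, ((s : ℝ) + 1) ^ 2 / 2 ^ s =
      12 - (2 * (S : ℝ) ^ 2 + 8 * S + 12) / 2 ^ S := fun S => by
    induction S with
    | zero => norm_num
    | succ S ih => rw [sum_range_succ, ih]; push_cast; field_simp; ring
  rw [← sum_fiberwise_of_maps_to (g := Prod.fst) (t := range (F.sup Prod.fst + 1))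
    fun a ha => mem_range.2 (Nat.lt_succ_of_le (le_sup ha))]
  have a : ∀ s, ((∑ f ∈ F.filter fun f => f.1 = s, (f.1 + 1) ^ 2 : ℕ) : ℝ) ≤
      ((s : ℝ) + 1) ^ 2 / 2 ^ s * D := fun s => by
    have c : (F.filter fun f => f.1 = s).card ≤ D / 2 ^ s := by
      rw [← Nat.add_sub_cancel (D / 2 ^ s) 1, ← Nat.card_Icc]
      refine card_le_card_of_injOn Prod.snd (fun f hf => ?_) fun a ha b hb e =>
        Prod.ext ((mem_filter.1 (mem_coe.1 ha)).2.trans (mem_filter.1 (mem_coe.1 hb)).2.symm) e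
      obtain ⟨f1, rfl⟩ := mem_filter.1 (mem_coe.1 hf)
      exact mem_coe.2 (mem_Icc.2 (h f f1))
    rw [sum_congr rfl (g := fun _ => (s + 1) ^ 2) fun f hf => by rw [(mem_filter.1 hf).2],
      sum_const, smul_eq_mul]
    have c2 : ((F.filter fun f => f.1 = s).card : ℝ) ≤ D / 2 ^ s :=
      (Nat.cast_le.2 c).trans (Nat.cast_div_le.trans_eq (by push_cast; rfl))
    push_cast
    calc _ ≤ D / 2 ^ s * ((s : ℝ) + 1) ^ 2 := by gcongr
      _ = _ := by ring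
  have b := sum_le_sum (s := range (F.sup Prod.fst + 1)) fun s _ => a s
  rw [← Nat.cast_sum, ← sum_mul, k] at b
  have : (0 : ℝ) ≤ (2 * ((F.sup Prod.fst + 1 : ℕ) : ℝ) ^ 2 + 8 * (F.sup Prod.fst + 1 : ℕ) + 12) /
    2 ^ (F.sup Prod.fst + 1) * D := by positivity
  exact_mod_cast (b.trans (by linarith) : _ ≤ (12 : ℝ) * D)

theorem card_st (M₂ : ℕ) : M₂ * (d.T.filter d.St).card ≤
    M₂ * ((d.M + M₂) * ∑ f ∈ d.T.image d.fb, (f.1 + 1) ^ 2) + 2 * d.Zs.card := by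
  set E := d.T.filter d.St
  set lt : ℕ × ℕ → Finset (ℕ × ℕ) := fun l => d.T.filter fun b => d.fb b = d.fb l ∧ l.1 ≤ b.1
  set R := E.filter fun l => ¬ (lt l).card ≤ (d.M + M₂) * (l.2 + 1) ^ 2
  have u1 : (E.filter fun l => (lt l).card ≤ (d.M + M₂) * (l.2 + 1) ^ 2).card ≤
      (d.M + M₂) * ∑ f ∈ d.T.image d.fb, (f.1 + 1) ^ 2 := by
    rw [card_eq_sum_card_fiberwise (f := d.fb) (t := d.T.image d.fb) (fun a ha => mem_coe.2
      (mem_image_of_mem _ (mem_filter.1 (mem_filter.1 (mem_coe.1 ha)).1).1)), mul_sum]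
    refine sum_le_sum fun f _ => ?_
    rcases ((E.filter fun l => (lt l).card ≤ (d.M + M₂) * (l.2 + 1) ^ 2).filter
      fun l => d.fb l = f).eq_empty_or_nonempty with e | hne
    · exact (card_eq_zero.2 e).trans_le (Nat.zero_le _)
    obtain ⟨a, ha, hm⟩ := exists_min_image _ Prod.fst hne
    obtain ⟨a1, rfl⟩ := mem_filter.1 ha
    exact (card_le_card fun b hb => mem_filter.2 ⟨(mem_filter.1 (mem_filter.1
      (mem_filter.1 hb).1).1).1, (mem_filter.1 hb).2, hm b hb⟩).trans (mem_filter.1 a1).2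
  have rT : ∀ l ∈ R, l ∈ d.T ∧ d.St l := fun l h => mem_filter.1 (mem_filter.1 h).1
  choose! ξ x1 x2 x3 using fun l (h : l ∈ R) => (rT l h).2
  set Pu : ℕ × ℕ → Finset ℕ := fun l =>
    d.Zs.filter fun z => ξ l ≤ z ∧ z < l.1 ∧ d.cc l.2 (d.lf z) = d.C l
  have u2 : ∀ l ∈ R, M₂ * (l.2 + 1) ^ 2 ≤ (Pu l).card := fun l h => by
    have a : (lt l).card ≤ (((d.P l.1).filter fun y => d.cc l.2 y = d.C l) ∪
        (Pu l).image d.lf).card := by
      refine card_le_card_of_injOn d.u (fun b hb => mem_coe.2 ?_)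
        (u_inj H (filter_subset _ _) fun b hb => (mem_filter.1 hb).2.1)
      obtain ⟨b1, b2, b3⟩ := mem_filter.1 (mem_coe.1 hb)
      have c : d.cc l.2 (d.u b) = d.C l := (fb_eq b2).1 ▸ (fb_eq b2).2 ▸ (H.up b b1).2
      by_cases k : d.u b ∈ d.P l.1
      · exact mem_union_left _ (mem_filter.2 ⟨k, c⟩)
      · obtain ⟨z, z1, z2, z3, z4⟩ := H.hid l (rT l h).1 b b1 _ b2
          (lt_of_le_of_ne b3 fun e => k (e ▸ (H.up b b1).1)) (x1 l h) (x2 l h) k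
        exact mem_union_right _ (mem_image.2 ⟨z, mem_filter.2 ⟨z1, z2, z3, z4 ▸ c⟩, z4⟩)
    have b := a.trans ((card_union_le _ _).trans (add_le_add (H.good l (rT l h).1) card_image_le))
    have c := not_le.1 (mem_filter.1 h).2
    rw [add_mul] at c
    omega
  have u3 : M₂ * R.card ≤ 2 * d.Zs.card := sum_scale R Prod.snd _ _ fun s => by
    have dj : ∀ a ∈ R, ∀ b ∈ R, a.2 = b.2 → a.1 ≤ b.1 → a ≠ b → Disjoint (Pu a) (Pu b) :=
      fun a ha b hb e c ne => disjoint_left.2 fun z z1 z2 => by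
        obtain ⟨-, -, a2, a3⟩ := mem_filter.1 z1
        obtain ⟨-, b1, -, b3⟩ := mem_filter.1 z2
        exact ne (Prod.ext (le_antisymm c (x3 b hb a (rT a ha).1
          (Prod.ext e (a3.symm.trans (e ▸ b3))) (b1.trans a2.le))) e)
    calc _ ≤ ∑ a ∈ R.filter fun a => a.2 = s, (Pu a).card := by
          rw [mul_comm, ← smul_eq_mul]
          exact card_nsmul_le_sum _ _ _ fun a ha => (mem_filter.1 ha).2 ▸ u2 a (mem_filter.1 ha).1
      _ = ((R.filter fun a => a.2 = s).biUnion Pu).card := by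
          refine (card_biUnion fun a ha b hb ne => ?_).symm
          obtain ⟨a1, a2⟩ := mem_filter.1 (mem_coe.1 ha)
          obtain ⟨b1, b2⟩ := mem_filter.1 (mem_coe.1 hb)
          rcases le_total a.1 b.1 with c | c
          · exact dj a a1 b b1 (a2.trans b2.symm) c ne
          · exact (dj b b1 a a1 (b2.trans a2.symm) c ne.symm).symm
      _ ≤ _ := card_le_card (biUnion_subset.2 fun _ _ => filter_subset _ _)
  have : _ + R.card = E.card := card_filter_add_card_filter_not _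
  rw [← this, mul_add]
  exact add_le_add (Nat.mul_le_mul_left M₂ u1) u3

/-- The light links. -/
theorem card_light (M₂ D : ℕ) (hD : ∀ l ∈ d.T, 0 < d.C l ∧ d.C l ≤ D / 2 ^ l.2) :
    M₂ * (d.T.filter d.Light).card ≤ d.K * (d.K + 2) * (2 * d.Zs.card) +
      M₂ * d.K * (3 * d.K + 2 + (d.K + 2) * (d.M + M₂)) * (12 * D) := by
  have f := sum_fib (d.T.image d.fb) D (forall_mem_image.2 hD)
  have f1 : (d.T.image d.fb).card ≤ 12 * D := le_trans (by
    rw [card_eq_sum_ones]; exact sum_le_sum fun _ _ => Nat.one_le_pow _ _ (Nat.succ_pos _)) f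
  have f2 : d.W.card ≤ 12 * D := card_W.trans (le_trans (sum_le_sum fun _ _ => by nlinarith) f)
  have a1 := card_nf H
  have a2 := card_fw H
  have a3 := card_en (d := d)
  have a4 := (card_st H M₂).trans (Nat.add_le_add_right
    (Nat.mul_le_mul_left _ (Nat.mul_le_mul_left _ f)) _)
  have a5 : (d.T.filter fun k => d.En k ∨ d.St k).card ≤
      (d.T.filter d.En).card + (d.T.filter d.St).card := by
    rw [filter_or]
    exact card_union_le _ _
  have a6 := card_filter_add_card_filter_not (s := d.T.filter d.Light) d.Fwd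
  rw [filter_filter, filter_filter] at a6
  generalize (d.T.filter d.St).card = st at *
  generalize 12 * D = F at *
  have b1 : (d.T.filter d.Light).card ≤ d.K * F + d.K * (F + 2 * st + d.K * (F + st) +
      2 * d.K * F) := by
    have c1 := Nat.mul_le_mul_left d.K f2
    have c2 := Nat.mul_le_mul_left (2 * d.K) f2
    have c3 := Nat.mul_le_mul_left d.K (a3.trans (Nat.add_le_add_right f1 _))
    have c4 := a2.trans (Nat.mul_le_mul_left d.K (show _ ≤ F + 2 * st + d.K * (F + st) +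
      2 * d.K * F by omega))
    omega
  have b2 := Nat.mul_le_mul_left M₂ b1
  have b3 := Nat.mul_le_mul_left (d.K * (d.K + 2)) a4
  nlinarith

end TD

end Pool.Agent.P.MP_119182_lc.CO
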