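import Pool.Agent.P.MP_119182_lc.CO.Base
import Pool.Agent.P.MP_119182_lc.CO.T0c10

/-! The bound for type 0 links. -/

set_option autoImplicit false

namespace Pool.Agent.P.MP_119182_lc.CO

open Finset
open scoped Classical

theorem t0_nest {σ s a b : ℕ} (h : σ ≤ s) (e : a / 2 ^ σ ≤ b / 2 ^ σ) : a / 2 ^ s ≤ b / 2 ^ s := by
  obtain ⟨k, rfl⟩ := Nat.exists_eq_add_of_le h
  rw [pow_add, ← Nat.div_div_eq_div_mul, ← Nat.div_div_eq_div_mul]
  exact Nat.div_le_div_right e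

section
variable {c : Core} {sl : ℤ → ℕ} (H : c.OK) (hs : Monotone sl)
include hs

theorem t0_lt {s : ℕ} {a b : ℤ} (h : sl a / 2 ^ s < sl b / 2 ^ s) : a < b :=
  not_le.1 fun k => not_le.2 h (Nat.div_le_div_right (hs k))

theorem t0_al {s t t' : ℕ} {u : ℤ} (h : c.T0 sl s t u)
    (a : sl (c.x t') / 2 ^ s + 1 < sl u / 2 ^ s) : c.x t' < c.lo t u := by
  refine t0_lt hs (s := s) ?_
  have e := h.2
  rw [pow_succ, ← Nat.div_div_eq_div_mul, ← Nat.div_div_eq_div_mul] at e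
  omega

include H

theorem t0_later {s t t' : ℕ} {u v : ℤ} (hu : u ∈ c.U t) (hv : v ∈ c.U t') (h : c.T0 sl s t u)
    (h' : c.T0 sl s t' v) (e : sl v / 2 ^ s = sl u / 2 ^ s) (lt : t < t') :
    c.x t' < c.lo t u ∧ u < v ∧ (v ∈ c.P t ∨ c.r t < v) := by
  have a := t0_al hs (t' := t') h (by have := h'.1.1; have := h'.1.2; omega)
  have b : c.lo t u < v := t0_lt hs (e ▸ h.1.2)
  exact ⟨a, H.frU t t' u hu v hv lt a b, H.on t t' u hu v hv lt a b⟩

theorem t0_same {s t : ℕ} {u v : ℤ} (hu : u ∈ c.U t) (hv : v ∈ c.U t) (h : c.T0 sl s t u)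
    (h' : c.T0 sl s t v) (e : sl v / 2 ^ s = sl u / 2 ^ s) : u = v := by
  rcases lt_trichotomy u v with k | k | k
  · exact absurd (H.same t u hu v hv k) (t0_lt hs (e ▸ h'.1.2)).not_gt
  · exact k
  · exact absurd (H.same t v hv u hu k) (t0_lt hs (e ▸ h.1.2)).not_gt

end

theorem type0 : Type0 := by
  refine ⟨768, fun K c n sl H hs hn => ?_⟩
  rcases K.eq_zero_or_pos with rfl | K0
  · simp
  set L : Finset ((ℕ × ℕ) × ℤ) := ((c.A ×ˢ range n) ×ˢ c.A.biUnion c.U).filter fun q =>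
    q.2 ∈ c.U q.1.1 ∧ c.T0 sl q.1.2 q.1.1 q.2
  have lA : ∀ q ∈ L, q.1.1 ∈ c.A := fun q h =>
    (mem_product.1 (mem_product.1 (mem_filter.1 h).1).1).1
  have lU : ∀ q ∈ L, q.2 ∈ c.U q.1.1 := fun q h => (mem_filter.1 h).2.1
  have lT : ∀ q ∈ L, c.T0 sl q.1.2 q.1.1 q.2 := fun q h => (mem_filter.1 h).2.2
  have e0 : c.cnt0 sl n ≤ L.card := by
    rw [card_eq_sum_card_fiberwise (f := Prod.fst) (s := L) (t := c.A ×ˢ range n)
      (fun q h => (mem_product.1 (mem_filter.1 (mem_coe.1 h)).1).1), sum_product_right]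
    refine sum_le_sum fun s h1 => sum_le_sum fun t h2 => card_le_card_of_injOn
      (fun u => ((t, s), u)) (fun u hu => ?_) fun _ _ _ _ e => (Prod.mk.inj e).2
    obtain ⟨a, b⟩ := mem_filter.1 (mem_coe.1 hu)
    exact mem_coe.2 (mem_filter.2 ⟨mem_filter.2 ⟨mem_product.2 ⟨mem_product.2 ⟨h2, h1⟩,
      mem_biUnion.2 ⟨t, h2, a⟩⟩, a, b⟩, rfl⟩)
  set cl : (ℕ × ℕ) × ℤ → Finset ℤ := fun q =>
    (c.P q.1.1).filter fun y => sl y / 2 ^ q.1.2 = sl q.2 / 2 ^ q.1.2
  set G := L.filter fun q => (cl q).card ≤ 4 * K * (q.1.2 + 1) ^ 2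
  set B := L.filter fun q => ¬ (cl q).card ≤ 4 * K * (q.1.2 + 1) ^ 2
  have e1 : G.card + B.card = L.card := card_filter_add_card_filter_not _
  have gL : ∀ q ∈ G, q ∈ L := fun q h => (mem_filter.1 h).1
  have eq3 : ∀ a ∈ L, ∀ b ∈ L, a.1.1 = b.1.1 → a.1.2 = b.1.2 →
      sl b.2 / 2 ^ a.1.2 = sl a.2 / 2 ^ a.1.2 → a = b := fun a ha b hb e e' k =>
    Prod.ext (Prod.ext e e') (t0_same H hs (lU a ha) (e ▸ lU b hb) (lT a ha) (e ▸ e' ▸ lT b hb) k)
  have b1 : 4 * K * B.card ≤ 2 * c.N := TD.sum_scale B (fun q => q.1.2) _ _ fun s => by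
    rw [card_eq_sum_card_fiberwise (f := fun q => q.1.1) (t := c.A) (fun q h =>
      lA q (mem_filter.1 (mem_filter.1 (mem_coe.1 h)).1).1), mul_sum]
    refine sum_le_sum fun t _ => ?_
    set E := (B.filter fun q => q.1.2 = s).filter fun q => q.1.1 = t
    have hE : ∀ q ∈ E, (q ∈ L ∧ ¬ (cl q).card ≤ 4 * K * (q.1.2 + 1) ^ 2) ∧ q.1.2 = s ∧ q.1.1 = t :=
      fun q h => ⟨mem_filter.1 (mem_filter.1 (mem_filter.1 h).1).1,
        (mem_filter.1 (mem_filter.1 h).1).2, (mem_filter.1 h).2⟩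
    calc _ ≤ ∑ q ∈ E, (cl q).card := by
          rw [mul_comm, ← smul_eq_mul]
          exact card_nsmul_le_sum _ _ _ fun q h => (hE q h).2.1 ▸ (not_le.1 (hE q h).1.2).le
      _ = (E.biUnion cl).card := (card_biUnion fun a ha b hb ne => disjoint_left.2 fun y y1 y2 => by
          obtain ⟨⟨a1, -⟩, a2, a3⟩ := hE a ha
          obtain ⟨⟨b1, -⟩, b2, b3⟩ := hE b hb
          have e := a2.trans b2.symm
          exact ne (eq3 a a1 b b1 (a3.trans b3.symm) e
            ((e ▸ (mem_filter.1 y2).2).symm.trans (mem_filter.1 y1).2))).symm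
      _ ≤ _ := card_le_card (biUnion_subset.2 fun q h => (hE q h).2.2 ▸ filter_subset _ _)
  have fibb : ∀ q ∈ L, 0 < sl q.2 / 2 ^ q.1.2 ∧ sl q.2 / 2 ^ q.1.2 ≤ n / 2 ^ q.1.2 := fun q h =>
    ⟨(Nat.zero_le _).trans_lt (lT q h).1.2, Nat.div_le_div_right (hn _).le⟩
  set Tp := G.filter fun q => sl (c.r q.1.1) / 2 ^ q.1.2 = sl q.2 / 2 ^ q.1.2
  set Nt := G.filter fun q => ¬ sl (c.r q.1.1) / 2 ^ q.1.2 = sl q.2 / 2 ^ q.1.2
  have e2 : Tp.card + Nt.card = G.card := card_filter_add_card_filter_not _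
  have ur : ∀ q ∈ L, q.2 ≤ c.r q.1.1 := fun q h => H.le _ _ (H.lk _ _ (lU q h)).1
  have b2 : Nt.card ≤ 4 * K * (12 * n) := by
    set fb : (ℕ × ℕ) × ℤ → ℕ × ℕ := fun q => (q.1.2, sl q.2 / 2 ^ q.1.2)
    have nL : ∀ q ∈ Nt, q ∈ L := fun q h => gL q (mem_filter.1 h).1
    refine le_trans ?_ (Nat.mul_le_mul_left _ (TD.sum_fib (Nt.image fb) n
      (forall_mem_image.2 fun q h => fibb q (nL q h))))
    rw [card_eq_sum_card_fiberwise (f := fb) (t := Nt.image fb)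
      (fun a ha => mem_coe.2 (mem_image_of_mem _ (mem_coe.1 ha))), mul_sum]
    refine sum_le_sum fun f hf => ?_
    obtain ⟨a, ha, hm⟩ := exists_min_image (Nt.filter fun q => fb q = f) (fun q => q.1.1)
      (let ⟨q, h, e⟩ := mem_image.1 hf; ⟨q, mem_filter.2 ⟨h, e⟩⟩)
    obtain ⟨a1, rfl⟩ := mem_filter.1 ha
    have hb : ∀ b ∈ Nt.filter fun q => fb q = fb a, b ∈ L ∧ b.1.2 = a.1.2 ∧
        sl b.2 / 2 ^ a.1.2 = sl a.2 / 2 ^ a.1.2 := fun b h => by
      obtain ⟨e, e'⟩ := Prod.mk.inj (mem_filter.1 h).2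
      exact ⟨nL b (mem_filter.1 h).1, e, e ▸ e'⟩
    refine le_trans (card_le_card_of_injOn Prod.snd (fun b h => ?_) fun x hx y hy e => ?_)
      (mem_filter.1 (mem_filter.1 a1).1).2
    · obtain ⟨c1, c2, c3⟩ := hb b h
      refine mem_coe.2 (mem_filter.2 ⟨?_, c3⟩)
      rcases (hm b h).eq_or_lt with k | k
      · exact k ▸ (H.lk _ _ (lU b c1)).1
      · refine (t0_later H hs (lU a (nL a a1)) (lU b c1) (lT a (nL a a1)) (c2 ▸ lT b c1) c3
          k).2.2.resolve_right (t0_lt hs (s := a.1.2) ?_).not_gt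
        exact c3 ▸ lt_of_le_of_ne (Nat.div_le_div_right (hs (ur a (nL a a1))))
          (Ne.symm (mem_filter.1 a1).2)
    · obtain ⟨c1, c2, -⟩ := hb x hx
      obtain ⟨d1, d2, -⟩ := hb y hy
      have e3 := c2.trans d2.symm
      rcases lt_trichotomy x.1.1 y.1.1 with k | k | k
      · exact absurd e (t0_later H hs (lU x c1) (lU y d1) (lT x c1) (e3 ▸ lT y d1)
          (by rw [e]) k).2.1.ne
      · exact Prod.ext (Prod.ext k e3) e
      · exact absurd e (t0_later H hs (lU y d1) (lU x c1) (lT y d1) (e3 ▸ lT x c1)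
          (by rw [e]) k).2.1.ne'
  set T := Tp.image Prod.fst
  have tL : ∀ q ∈ Tp, q ∈ L := fun q h => gL q (mem_filter.1 h).1
  have e3 : T.card = Tp.card := card_image_of_injOn fun a ha b hb e =>
    eq3 a (tL a ha) b (tL b hb) (by rw [e]) (by rw [e]) (by
      rw [← (mem_filter.1 (mem_coe.1 ha)).2, e, (mem_filter.1 (mem_coe.1 hb)).2])
  have hu : ∀ l ∈ T, ∃ u, (l, u) ∈ Tp := fun l h =>
    let ⟨q, a, e⟩ := mem_image.1 h; ⟨q.2, e ▸ a⟩
  choose! u hu using hu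
  have uU : ∀ l ∈ T, u l ∈ c.U l.1 := fun l h => lU _ (tL _ (hu l h))
  have uT : ∀ l ∈ T, c.T0 sl l.2 l.1 (u l) := fun l h => lT _ (tL _ (hu l h))
  have uC : ∀ l ∈ T, sl (c.r l.1) / 2 ^ l.2 = sl (u l) / 2 ^ l.2 := fun l h =>
    (mem_filter.1 (hu l h)).2
  let d : TD := ⟨T, c.P, c.r, u, fun s y => sl y / 2 ^ s, fun s C t => sl (c.x t) / 2 ^ s + 1 < C,
    2 * K, fun t => (c.U t).Nonempty, c.Zs, c.lf, 4 * K⟩
  have lat : ∀ l ∈ T, ∀ l' ∈ T, d.fb l' = d.fb l → l.1 < l'.1 → _ := fun l h l' h' e k =>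
    t0_later H hs (uU l h) (uU l' h') (uT l h) ((TD.fb_eq e).1 ▸ uT l' h')
      (((TD.fb_eq e).1 ▸ (uC l' h').symm.trans (TD.fb_eq e).2).trans (uC l h)) k
  have hd : d.OK := by
    refine ⟨fun s a b h => Nat.div_le_div_right (hs h), fun σ s a b => t0_nest,
      fun s C t t' h a => lt_of_le_of_lt (Nat.succ_le_succ (Nat.div_le_div_right
        (hs (H.mono h)))) a, fun l h => ⟨_, uU l h⟩, fun l h => ?_,
      fun l h => ⟨(H.lk _ _ (uU l h)).1, (uC l h).symm⟩, fun l h l' h' a1 a2 a3 a4 => ?_,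
      fun l h l' h' e k => (lat l h l' h' e k).2.1, fun l h l' h' e k a => ?_,
      fun l h => ur _ (tL _ (hu l h)), fun l h l' h' t e k a1 a2 a3 => ?_, fun l h => ?_⟩
    · exact (Nat.succ_le_of_lt (uT l h).1.1).trans_lt ((uT l h).1.2.trans_eq (uC l h).symm)
    · have p1 : c.lo l.1 (u l) < c.lo l'.1 (u l') := t0_lt hs (s := l.2)
        ((uT l h).1.2.trans_le ((uC l h).ge.trans (a2.ge.trans
          ((t0_nest a1.le (uC l' h').le).trans (t0_nest a1 (uT l' h').2.ge)))))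
      have p2 : u l < c.lo l'.1 (u l') := by
        rcases a3.eq_or_lt with k | k
        · rcases lt_trichotomy (u l) (u l') with j | j | j
          · exact k ▸ H.same _ _ (uU l h) _ (k ▸ uU l' h') j
          · rw [k, j] at p1
            exact absurd p1 (lt_irrefl _)
          · exact absurd ((H.same _ _ (k ▸ uU l' h') _ (uU l h) j).trans p1)
              (H.lk _ _ (uU l' h')).2.2.not_gt
        · exact H.frL _ _ _ (uU l h) _ (uU l' h') k (t0_al hs (uT l h) (uC l h ▸ a4)) p1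
      exact (Nat.div_le_div_right (hs p2.le)).trans_lt ((uT l' h').1.2.trans_eq (uC l' h').symm)
    · rcases k.eq_or_lt with k | k
      · exact k ▸ (H.lk _ _ (uU l' h')).1
      · exact (lat l h l' h' e k).2.2.resolve_right a.not_gt
    · obtain ⟨c1, -, c2⟩ := lat l h l' h' e k
      refine H.hid _ _ _ _ (uU l h) _ (uU l' h') a1 k c1 a2.1 (t0_lt hs (s := l.2) ?_)
        (c2.resolve_left a3)
      exact ((TD.fb_eq e).1 ▸ (uC l' h').symm.trans (TD.fb_eq e).2).trans_lt a2.2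
    · have := (mem_filter.1 (mem_filter.1 (hu l h)).1).2
      simp only [cl, ← uC l h] at this
      exact this
  have tA : ∀ l ∈ T, l.1 ∈ c.A := fun l h => lA _ (tL _ (hu l h))
  have b3 : (T.filter fun l => ¬ ∃ σ, d.Cand l σ).card ≤ c.own :=
    card_le_card_of_injOn Prod.fst (fun l h => mem_coe.2 (mem_filter.2
      ⟨tA l (mem_filter.1 (mem_coe.1 h)).1, _, uU l (mem_filter.1 (mem_coe.1 h)).1⟩))
      ((TD.inj_noT hd).mono fun l h => mem_filter.1 (mem_coe.1 h))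
  have b4 : 2 * K * (T.filter fun l => (∃ σ, d.Cand l σ) ∧ ¬ d.Light l).card ≤ c.N :=
    (TD.card_heavy hd).trans (sum_le_sum_of_subset (image_subset_iff.2 tA))
  have b5 : K * (T.filter d.Light).card ≤ c.Zs.card + 720 * (K + 1) ^ 6 * n := by
    have a := TD.card_light hd (8 * K * (K + 1) * K) n fun l h =>
      (show sl (u l) / 2 ^ l.2 = d.C l from (uC l h).symm) ▸ fibb _ (tL _ (hu l h))
    refine Nat.le_of_mul_le_mul_left (c := 8 * K * (K + 1)) ?_ (by positivity)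
    have b : K * (2 * K) * (3 * (2 * K) + 2 + (2 * K + 2) * (4 * K + 8 * K * (K + 1) * K)) ≤
        60 * (K + 1) ^ 6 := by ring_nf; omega
    have := Nat.mul_le_mul_right (8 * K * (K + 1) * (12 * n)) b
    change _ ≤ 2 * K * (2 * K + 2) * (2 * c.Zs.card) + 8 * K * (K + 1) * K * (2 * K) *
      (3 * (2 * K) + 2 + (2 * K + 2) * (4 * K + 8 * K * (K + 1) * K)) * (12 * n) at a
    change 8 * K * (K + 1) * K * (T.filter d.Light).card ≤ _ at a
    linarith
  have e4 : T.card ≤ (T.filter fun l => ¬ ∃ σ, d.Cand l σ).card +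
      (T.filter fun l => (∃ σ, d.Cand l σ) ∧ ¬ d.Light l).card + (T.filter d.Light).card := by
    refine le_trans (card_le_card fun l h => ?_)
      ((card_union_le _ _).trans (Nat.add_le_add_right (card_union_le _ _) _))
    simp only [mem_union, mem_filter]
    tauto
  have b6 : K * (4 * K * (12 * n)) ≤ 48 * (K + 1) ^ 6 * n := by
    have : K * K ≤ (K + 1) ^ 6 := by ring_nf; omega
    have := Nat.mul_le_mul_right (48 * n) this
    linarith
  have c1 := Nat.mul_le_mul_left K (show c.cnt0 sl n ≤ c.own +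
    (T.filter fun l => (∃ σ, d.Cand l σ) ∧ ¬ d.Light l).card + (T.filter d.Light).card +
    4 * K * (12 * n) + B.card by omega)
  linarith

end Pool.Agent.P.MP_119182_lc.CO
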