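import Mathlib

/-! Counting lemma for pairs (time, scale). -/

set_option autoImplicit false

namespace Pool.Agent.P.MP_119182_lc.CO

open Finset
open scoped Classical

/-- The pair `(t, s)` is dominated. -/
def t1c_Dom (G : Finset (ℕ × ℕ)) (X : ℕ → ℕ → ℕ) (a : ℕ × ℕ) : Prop :=
  ∃ z S, (z, S) ∈ G ∧ a.2 < S ∧ a.1 ≤ z ∧
    ∀ t', a.1 < t' → (t', a.2) ∈ G → X a.2 t' = X a.2 a.1 → z < t'

/-- Disjoint rich intervals. -/
theorem t1c_rich (Q R : Finset ℕ) (nx : ℕ → ℕ) (r : ℝ)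
    (h1 : ∀ a ∈ R, ∀ a' ∈ R, a < a' → nx a ≤ a')
    (h2 : ∀ a ∈ R, r ≤ (Q.filter fun y => a ≤ y ∧ y < nx a).card) :
    (R.card : ℝ) * r ≤ Q.card := by
  have h3 : ∑ a ∈ R, (Q.filter fun y => a ≤ y ∧ y < nx a).card ≤ Q.card := by
    rw [← card_biUnion]
    · exact card_le_card (biUnion_subset.2 fun a _ => filter_subset _ _)
    · intro a ha a' ha' hne
      rw [Function.onFun, disjoint_left]
      intro y hy hy'
      have h4 := (mem_filter.1 hy).2
      have h5 := (mem_filter.1 hy').2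
      rcases lt_or_gt_of_ne hne with h | h
      · have := h1 a ha a' ha' h
        omega
      · have := h1 a' ha' a ha h
        omega
  calc (R.card : ℝ) * r = ∑ _a ∈ R, r := by rw [sum_const, nsmul_eq_mul]
    _ ≤ ∑ a ∈ R, ((Q.filter fun y => a ≤ y ∧ y < nx a).card : ℝ) := sum_le_sum h2
    _ ≤ Q.card := by exact_mod_cast h3

/-- One scale. -/
theorem t1c_step (G : Finset (ℕ × ℕ)) (X : ℕ → ℕ → ℕ) (Q : Finset ℕ) (s f φ : ℕ) (k r : ℝ)
    (hk : 0 ≤ k) (hr : 0 < r) (hX : Monotone (X s)) (hf : ∀ t, (t, s) ∈ G → X s t < f)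
    (key : ∀ (a a' z S : ℕ) (B : Finset ℕ), (a, s) ∈ G → (a', s) ∈ G → a ≤ z → z < a' →
      X s a' = X s a → (z, S) ∈ G → s < S →
      (∀ b ∈ B, a' ≤ b ∧ (b, s) ∈ G ∧ X s b = X s a ∧
        ∃ y v, (y, v) ∈ G ∧ s < v ∧ v ≤ S ∧ b ≤ y ∧ X s y = X s a) →
      (B.card : ℝ) ≤ k + (Q.filter fun y => a ≤ y ∧ y < a').card) :
    (((G.filter (t1c_Dom G X)).filter fun a => a.2 = s).card : ℝ) ≤ f + Q.card / r +
      (k + r + 1) * (f * (φ + 2) + ((G.filter (t1c_Dom G X)).filter fun a => φ + 1 ≤ a.2).card) := by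
  set DD := G.filter (t1c_Dom G X) with hDD
  let D : Finset ℕ := (DD.filter fun a => a.2 = s).image Prod.fst
  have hD : ∀ t ∈ D, (t, s) ∈ G ∧ t1c_Dom G X (t, s) := by
    intro t ht
    obtain ⟨⟨a, b⟩, h1, rfl⟩ := mem_image.1 ht
    obtain ⟨h2, h3⟩ := mem_filter.1 h1
    obtain rfl : b = s := h3
    exact mem_filter.1 h2
  have hDc : (DD.filter fun a => a.2 = s).card = D.card := by
    refine (card_image_of_injOn fun a ha a' ha' h => Prod.ext h ?_).symm
    rw [(mem_filter.1 (mem_coe.1 ha)).2, (mem_filter.1 (mem_coe.1 ha')).2]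
  let Nx : ℕ → ℕ → Prop := fun t t' => t < t' ∧ (t', s) ∈ G ∧ X s t' = X s t
  let nx : ℕ → ℕ := fun t => if h : ∃ t', Nx t t' then Nat.find h else 0
  have nx1 : ∀ t, (∃ t', Nx t t') → Nx t (nx t) ∧ ∀ t', Nx t t' → nx t ≤ t' := by
    intro t h
    have e : nx t = Nat.find h := dif_pos h
    rw [e]
    exact ⟨Nat.find_spec h, fun t' h' => Nat.find_min' h h'⟩
  let Mm : ℕ → ℕ → Prop := fun t v => s < v ∧ ∃ y, (y, v) ∈ G ∧ t ≤ y ∧ X s y = X s t
  let mm : ℕ → ℕ := fun t => if h : ∃ v, Mm t v then Nat.find h else 0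
  have mm1 : ∀ t v, Mm t v → Mm t (mm t) ∧ mm t ≤ v := by
    intro t v h
    have e : mm t = Nat.find ⟨v, h⟩ := dif_pos ⟨v, h⟩
    rw [e]
    exact ⟨Nat.find_spec ⟨v, h⟩, Nat.find_min' _ h⟩
  let D1 := D.filter fun t => ¬ ∃ t', Nx t t'
  let D' := D.filter fun t => ∃ t', Nx t t'
  let D2 := D'.filter fun t => r ≤ (Q.filter fun y => t ≤ y ∧ y < nx t).card
  let D3 := D'.filter fun t => ¬ r ≤ (Q.filter fun y => t ≤ y ∧ y < nx t).card
  have e1 : D'.card + D1.card = D.card := card_filter_add_card_filter_not _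
  have e2 : D2.card + D3.card = D'.card := card_filter_add_card_filter_not _
  have b1 : D1.card ≤ f := by
    rw [← card_range f]
    refine card_le_card_of_injOn (X s) (fun t ht => ?_) fun t ht t' ht' h => ?_
    · exact mem_coe.2 (mem_range.2 (hf t (hD t (mem_filter.1 (mem_coe.1 ht)).1).1))
    · obtain ⟨h1, h2⟩ := mem_filter.1 (mem_coe.1 ht)
      obtain ⟨h1', h2'⟩ := mem_filter.1 (mem_coe.1 ht')
      by_contra hne
      rcases lt_or_gt_of_ne hne with h3 | h3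
      · exact h2 ⟨t', h3, (hD t' h1').1, h.symm⟩
      · exact h2' ⟨t, h3, (hD t h1).1, h⟩
  have b2 : (D2.card : ℝ) ≤ Q.card / r := by
    rw [le_div_iff₀ hr]
    refine t1c_rich Q D2 nx r (fun a ha a' ha' h => ?_) fun a ha => (mem_filter.1 ha).2
    obtain ⟨h1, h2⟩ := mem_filter.1 (mem_filter.1 ha).1
    obtain ⟨h3, h4⟩ := nx1 a h2
    by_contra h5
    have h6 := hX h.le
    have h7 := hX (not_le.1 h5).le
    exact h5 (h4 a' ⟨h, (hD a' (mem_filter.1 (mem_filter.1 ha').1).1).1, by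
      have := h3.2.2
      omega⟩)
  have d3 : ∀ t ∈ D3, (t, s) ∈ G ∧ Mm t (mm t) ∧ ∀ B : Finset ℕ,
      (∀ b ∈ B, Nx t b ∧ Mm b (mm t)) → (B.card : ℝ) ≤ k + r := by
    intro t ht
    obtain ⟨h1, h2⟩ := mem_filter.1 ht
    obtain ⟨h3, h4⟩ := mem_filter.1 h1
    obtain ⟨h5, z, S, z1, z2, z3, z4⟩ := hD t h3
    obtain ⟨n1, n2⟩ := nx1 t h4
    have z5 : z < nx t := z4 _ n1.1 n1.2.1 n1.2.2
    have z6 : X s z = X s t := by
      have a1 := hX z3
      have a2 := hX z5.le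
      have a3 := n1.2.2
      exact le_antisymm (a3 ▸ a2) a1
    obtain ⟨m1, m2⟩ := mm1 t S ⟨z2, z, z1, z3, z6⟩
    refine ⟨h5, m1, fun B hB => ?_⟩
    have := key t (nx t) z S B h5 n1.2.1 z3 z5 n1.2.2 z1 z2 fun b hb => by
      obtain ⟨c1, c2, y, c3, c4, c5⟩ := hB b hb
      exact ⟨n2 b c1, c1.2.1, c1.2.2, y, mm t, c3, c2, m2, c4, c5.trans c1.2.2⟩
    have h6 := not_le.1 h2
    linarith
  let cl : ℕ → ℕ × ℕ := fun t => (X s t, mm t)
  let Cl := D3.image cl
  have b3 : (D3.card : ℝ) ≤ (k + r + 1) * Cl.card := by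
    rw [card_eq_sum_card_fiberwise (f := cl) (s := D3) (t := Cl)
      (fun t ht => mem_coe.2 (mem_image_of_mem cl (mem_coe.1 ht))), Nat.cast_sum, mul_comm,
      ← nsmul_eq_mul, ← sum_const]
    refine sum_le_sum fun c hc => ?_
    set T := D3.filter fun t => cl t = c with hT
    have hne : T.Nonempty := by
      obtain ⟨t, ht, h⟩ := mem_image.1 hc
      exact ⟨t, mem_filter.2 ⟨ht, h⟩⟩
    have h0 := mem_filter.1 (T.min'_mem hne)
    have h1 := (d3 _ h0.1).2.2 (T.erase (T.min' hne)) fun b hb => by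
      obtain ⟨c1, c2⟩ := mem_erase.1 hb
      have c3 := mem_filter.1 c2
      have c4 : cl b = cl (T.min' hne) := c3.2.trans h0.2.symm
      have c5 : mm b = mm (T.min' hne) := congrArg Prod.snd c4
      refine ⟨⟨lt_of_le_of_ne (T.min'_le b c2) c1.symm, (d3 b c3.1).1, congrArg Prod.fst c4⟩, ?_⟩
      rw [← c5]
      exact (d3 b c3.1).2.1
    have h2 : (T.erase (T.min' hne)).card + 1 = T.card := card_erase_add_one (T.min'_mem hne)
    rw [← h2, Nat.cast_add, Nat.cast_one]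
    linarith
  have b4 : Cl.card ≤ f * (φ + 2) + (DD.filter fun a => φ + 1 ≤ a.2).card := by
    let C2 := Cl.filter fun c => ∀ v, (c.1, v) ∈ Cl → v ≤ c.2
    have hC : ∀ c ∈ Cl, c.1 < f := by
      intro c hc
      obtain ⟨t, ht, rfl⟩ := mem_image.1 hc
      exact hf t (d3 t ht).1
    have c2 : C2.card ≤ f := by
      rw [← card_range f]
      refine card_le_card_of_injOn Prod.fst (fun c hc => ?_) fun c hc c' hc' h => ?_
      · exact mem_coe.2 (mem_range.2 (hC c (mem_filter.1 (mem_coe.1 hc)).1))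
      · obtain ⟨h1, h2⟩ := mem_filter.1 (mem_coe.1 hc)
        obtain ⟨h1', h2'⟩ := mem_filter.1 (mem_coe.1 hc')
        refine Prod.ext h (le_antisymm (h2' _ ?_) (h2 _ ?_))
        · rw [← h]; exact h1
        · rw [h]; exact h1'
    have sub : Cl ⊆ (range f ×ˢ range (φ + 1) ∪ C2) ∪
        (DD.filter fun a => φ + 1 ≤ a.2).image fun a => (X s a.1, a.2) := by
      intro c hc
      by_cases h1 : c.2 < φ + 1
      · exact mem_union_left _ (mem_union_left _
          (mem_product.2 ⟨mem_range.2 (hC c hc), mem_range.2 h1⟩))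
      by_cases h2 : ∀ v, (c.1, v) ∈ Cl → v ≤ c.2
      · exact mem_union_left _ (mem_union_right _ (mem_filter.2 ⟨hc, h2⟩))
      refine mem_union_right _ ?_
      obtain ⟨v', h3, h4⟩ : ∃ v', (c.1, v') ∈ Cl ∧ c.2 < v' := by
        by_contra h5
        exact h2 fun v hv => not_lt.1 fun h6 => h5 ⟨v, hv, h6⟩
      obtain ⟨t, ht, rfl⟩ := mem_image.1 hc
      obtain ⟨t', ht', h5⟩ := mem_image.1 h3
      have h6 : X s t' = X s t := congrArg Prod.fst h5
      have h7 : mm t' = v' := congrArg Prod.snd h5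
      obtain ⟨-, ⟨s1, y0, s2, -, s3⟩, -⟩ := d3 t ht
      obtain ⟨-, ⟨-, y', s5, s6, s7⟩, -⟩ := d3 t' ht'
      let Y := (G.filter fun a => a.2 = mm t ∧ X s a.1 = X s t).image Prod.fst
      have hY : ∀ y, y ∈ Y ↔ (y, mm t) ∈ G ∧ X s y = X s t := by
        intro y
        constructor
        · intro hy
          obtain ⟨⟨a, b⟩, y1, rfl⟩ := mem_image.1 hy
          obtain ⟨y2, y3, y4⟩ := mem_filter.1 y1
          obtain rfl : b = mm t := y3
          exact ⟨y2, y4⟩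
        · intro hy
          exact mem_image.2 ⟨(y, mm t), mem_filter.2 ⟨hy.1, rfl, hy.2⟩, rfl⟩
      have hne : Y.Nonempty := ⟨y0, (hY y0).2 ⟨s2, s3⟩⟩
      obtain ⟨y1, y2⟩ := (hY _).1 (Y.max'_mem hne)
      have y3 : Y.max' hne < t' := by
        by_contra y4
        have := (mm1 t' (mm t) ⟨s1, _, y1, not_lt.1 y4, y2.trans h6.symm⟩).2
        have h8 : mm t < v' := h4
        omega
      refine mem_image.2 ⟨(Y.max' hne, mm t), mem_filter.2 ⟨mem_filter.2 ⟨y1, y', mm t', s5,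
        h7 ▸ h4, (y3.trans_le s6).le, fun t'' u1 u2 _ => ?_⟩, not_lt.1 h1⟩, Prod.ext y2 rfl⟩
      by_contra u3
      have u4 := hX (not_lt.1 u3)
      have u5 := hX u1.le
      have u6 : X s t'' = X s t := by
        have u7 : X s (Y.max' hne) ≤ X s t'' := u5
        omega
      exact absurd (Y.le_max' t'' ((hY t'').2 ⟨u2, u6⟩)) (not_le.2 u1)
    have c3 := card_le_card sub
    have c4 := card_union_le (range f ×ˢ range (φ + 1) ∪ C2)
      ((DD.filter fun a => φ + 1 ≤ a.2).image fun a => (X s a.1, a.2))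
    have c5 := card_union_le (range f ×ˢ range (φ + 1)) C2
    have c6 := card_image_le (s := DD.filter fun a => φ + 1 ≤ a.2) (f := fun a => (X s a.1, a.2))
    rw [card_product, card_range, card_range] at c5
    have c7 : f * (φ + 2) = f * (φ + 1) + f := by ring
    omega
  have b5 : (Cl.card : ℝ) ≤ f * (φ + 2) + (DD.filter fun a => φ + 1 ≤ a.2).card := by
    exact_mod_cast b4
  have b6 : (D1.card : ℝ) ≤ f := by exact_mod_cast b1
  have b7 := mul_le_mul_of_nonneg_left b5 (show 0 ≤ k + r + 1 by linarith)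
  rw [hDc, ← e1, ← e2, Nat.cast_add, Nat.cast_add]
  linarith

theorem t1c_bern (s : ℕ) : (s : ℝ) + 1 ≤ 4 * (5 / 4 : ℝ) ^ s := by
  have h := one_add_mul_le_pow (show (-2 : ℝ) ≤ 1 / 4 by norm_num) s
  rw [show (1 + 1 / 4 : ℝ) = 5 / 4 by norm_num] at h
  linarith

theorem t1c_cube (s : ℕ) : (5 / 4 : ℝ) ^ s * (5 / 4 : ℝ) ^ s * (5 / 4 : ℝ) ^ s ≤ 2 ^ s := by
  rw [← mul_pow, ← mul_pow]
  exact pow_le_pow_left₀ (by norm_num) (by norm_num) s

/-- At most one pair per time is not dominated. -/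
theorem t1c_one {G : Finset (ℕ × ℕ)} {X : ℕ → ℕ → ℕ} {t s s' : ℕ} (h1 : (t, s) ∈ G)
    (h1' : (t, s') ∈ G) (h2 : ¬ t1c_Dom G X (t, s)) (h2' : ¬ t1c_Dom G X (t, s')) : s = s' := by
  by_contra hne
  rcases lt_or_gt_of_ne hne with h3 | h3
  · exact h2 ⟨t, s', h1', h3, le_rfl, fun _ h4 _ _ => h4⟩
  · exact h2' ⟨t, s, h1, h3, le_rfl, fun _ h4 _ _ => h4⟩

/-- The counting lemma. -/
theorem t1c_dom (G : Finset (ℕ × ℕ)) (X : ℕ → ℕ → ℕ) (Q : Finset ℕ) (n c : ℕ) (K D : ℝ)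
    (hK : 0 ≤ K) (hD : 0 < D) (hc : 8 * (K + D + 1) ≤ (5 / 4 : ℝ) ^ c)
    (hX : ∀ s, Monotone (X s))
    (hf : ∀ t s, (t, s) ∈ G → X s t < n / 2 ^ s)
    (key : ∀ (s a a' z S : ℕ) (B : Finset ℕ), (a, s) ∈ G → (a', s) ∈ G → a ≤ z → z < a' →
      X s a' = X s a → (z, S) ∈ G → s < S →
      (∀ b ∈ B, a' ≤ b ∧ (b, s) ∈ G ∧ X s b = X s a ∧
        ∃ y v, (y, v) ∈ G ∧ s < v ∧ v ≤ S ∧ b ≤ y ∧ X s y = X s a) →
      (B.card : ℝ) ≤ K * (5 / 4 : ℝ) ^ s + (Q.filter fun y => a ≤ y ∧ y < a').card) :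
    ((G.filter (t1c_Dom G X)).card : ℝ) ≤
      10 * (Q.card / D + (1 + 4 * (K + D + 1) * (c + 3)) * n) := by
  set DD := G.filter (t1c_Dom G X) with hDD
  set W : ℝ := Q.card / D + (1 + 4 * (K + D + 1) * (c + 3)) * n with hW
  have hT : 0 < K + D + 1 := by linarith
  have W0 : 0 ≤ W := by positivity
  obtain ⟨Z, hZ⟩ : ∃ Z, ∀ a ∈ G, a.2 < Z :=
    ⟨G.sup Prod.snd + 1, fun a ha => Nat.lt_succ_of_le (le_sup (f := Prod.snd) ha)⟩
  have s3 : ∀ j σ : ℕ, Z ≤ σ + j →
      ((DD.filter fun a => σ ≤ a.2).card : ℝ) ≤ 10 * W / (5 / 4 : ℝ) ^ σ := by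
    intro j
    induction j with
    | zero =>
      intro σ h
      rw [filter_eq_empty_iff.2 fun a ha h' => by
        have := hZ a (mem_filter.1 ha).1
        omega, card_empty, Nat.cast_zero]
      positivity
    | succ j ih =>
      intro σ h
      have i1 := ih (σ + 1) (by omega)
      have i2 := ih (3 * σ + c + 1) (by omega)
      set b : ℝ := (5 / 4 : ℝ) ^ σ with hb
      have b1 : 1 ≤ b := one_le_pow₀ (by norm_num)
      have b0 : 0 < b := by linarith
      have i3 := t1c_step G X Q σ (n / 2 ^ σ) (3 * σ + c) (K * b) (D * b) (by positivity)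
        (by positivity) (hX σ) (fun t => hf t σ) (key σ)
      have i4 : (DD.filter fun a => σ ≤ a.2).card ≤ (DD.filter fun a => a.2 = σ).card +
          (DD.filter fun a => σ + 1 ≤ a.2).card := by
        refine (card_le_card fun a ha => ?_).trans (card_union_le _ _)
        obtain ⟨h1, h2⟩ := mem_filter.1 ha
        rcases h2.eq_or_lt with h3 | h3
        · exact mem_union_left _ (mem_filter.2 ⟨h1, h3.symm⟩)
        · exact mem_union_right _ (mem_filter.2 ⟨h1, h3⟩)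
      have i5 : ((DD.filter fun a => σ ≤ a.2).card : ℝ) ≤ (DD.filter fun a => a.2 = σ).card +
          (DD.filter fun a => σ + 1 ≤ a.2).card := by exact_mod_cast i4
      set F : ℝ := ((n / 2 ^ σ : ℕ) : ℝ) with hF
      set E : ℝ := ((DD.filter fun a => 3 * σ + c + 1 ≤ a.2).card : ℝ) with hE
      have F0 : 0 ≤ F := Nat.cast_nonneg _
      have E0 : 0 ≤ E := Nat.cast_nonneg _
      have F1 : F * (b * b * b) ≤ n := by
        have f1 : ((n / 2 ^ σ * 2 ^ σ : ℕ) : ℝ) ≤ n := by exact_mod_cast Nat.div_mul_le_self n _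
        rw [Nat.cast_mul, Nat.cast_pow, Nat.cast_ofNat] at f1
        exact (mul_le_mul_of_nonneg_left (t1c_cube σ) F0).trans f1
      have p1 : (5 / 4 : ℝ) ^ (σ + 1) = b * (5 / 4) := pow_succ _ _
      have p2 : (5 / 4 : ℝ) ^ (3 * σ + c + 1) = b * b * b * (5 / 4 : ℝ) ^ c * (5 / 4) := by
        rw [hb]; ring
      have q1 : 10 * W / (b * (5 / 4)) = 8 * (W / b) := by field_simp; ring
      rw [p1, q1] at i1
      have q2 : (K * b + D * b + 1) ≤ (K + D + 1) * b := by linarith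
      have q3 : (K + D + 1) * b * E ≤ W / b := by
        rw [p2, le_div_iff₀ (by positivity)] at i2
        rw [le_div_iff₀ b0]
        have r1 : E * (b * b) * 1 * (8 * (K + D + 1)) ≤ E * (b * b) * b * (5 / 4 : ℝ) ^ c :=
          mul_le_mul (mul_le_mul_of_nonneg_left b1 (by positivity)) hc (by positivity)
            (by positivity)
        linarith
      have q4 : ((3 * σ + c : ℕ) : ℝ) + 2 ≤ (c + 3) * (4 * b) := by
        have r1 := mul_le_mul_of_nonneg_left (t1c_bern σ) (show (0 : ℝ) ≤ c + 3 by positivity)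
        have r2 : (0 : ℝ) ≤ (c : ℝ) * σ := by positivity
        push_cast
        linarith
      have q5 : F + (K + D + 1) * b * (F * (((3 * σ + c : ℕ) : ℝ) + 2)) ≤
          (1 + 4 * (K + D + 1) * (c + 3)) * n / b := by
        rw [le_div_iff₀ b0]
        have r1 : F * b ≤ F * (b * b * b) := mul_le_mul_of_nonneg_left (by nlinarith) F0
        have r2 : (K + D + 1) * b * F * b * (((3 * σ + c : ℕ) : ℝ) + 2) ≤
            (K + D + 1) * b * F * b * ((c + 3) * (4 * b)) :=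
          mul_le_mul_of_nonneg_left q4 (by positivity)
        have r3 : 4 * (K + D + 1) * (c + 3) * (F * (b * b * b)) ≤
            4 * (K + D + 1) * (c + 3) * n := mul_le_mul_of_nonneg_left F1 (by positivity)
        linarith
      have q6 : W / b = Q.card / (D * b) + (1 + 4 * (K + D + 1) * (c + 3)) * n / b := by
        rw [hW, add_div, div_div]
      have q7 := mul_le_mul_of_nonneg_right q2
        (show 0 ≤ F * (((3 * σ + c : ℕ) : ℝ) + 2) + E by positivity)
      have q8 : 10 * W / b = 10 * (W / b) := mul_div_assoc _ _ _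
      rw [q8]
      linarith
  have s4 := s3 Z 0 (by omega)
  rw [filter_true_of_mem fun a _ => Nat.zero_le _, pow_zero, div_one] at s4
  exact s4

end Pool.Agent.P.MP_119182_lc.CO
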